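import Pool.Agent.H30.UI.Stubs

/-! UI-1, UI-2: the universal bound. -/

namespace Pool.Agent.H30.UI

open Finset

theorem choose4_step (m : ℕ) : (m + 2).choose (m / 2 + 1) ≤ 4 * m.choose (m / 2) := by
  have h0 : ∀ r, m.choose r ≤ m.choose (m / 2) := fun r => Nat.choose_le_middle r m
  have h1 : ∀ r, (m + 1).choose r ≤ 2 * m.choose (m / 2) := by
    intro r
    rcases r with _ | r
    · have : 0 < m.choose (m / 2) := Nat.choose_pos (Nat.div_le_self _ _)
      simp only [Nat.choose_zero_right]; omega
    · rw [Nat.choose_succ_succ]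
      have := h0 r
      have := h0 (r + 1)
      simp only [Nat.succ_eq_add_one] at *
      omega
  rw [Nat.choose_succ_succ]
  have := h1 (m / 2)
  have := h1 (m / 2 + 1)
  simp only [Nat.succ_eq_add_one] at *
  omega

theorem choose4 : S_choose4 := by
  intro n k
  induction k with
  | zero => intro _; simp
  | succ k ih =>
      intro hk
      have h1 := ih (by omega)
      obtain ⟨m, hm⟩ : ∃ m, n - 2 * k = m + 2 := ⟨n - 2 * k - 2, by omega⟩
      have h2 : n / 2 - k = m / 2 + 1 := by omega
      have h3 : n - 2 * (k + 1) = m := by omega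
      have h4 : n / 2 - (k + 1) = m / 2 := by omega
      rw [hm, h2] at h1
      rw [h3, h4]
      have := choose4_step m
      calc n.choose (n / 2) ≤ 4 ^ k * (m + 2).choose (m / 2 + 1) := h1
        _ ≤ 4 ^ k * (4 * m.choose (m / 2)) := Nat.mul_le_mul_left _ this
        _ = 4 ^ (k + 1) * m.choose (m / 2) := by ring

section
variable {V : Type} [Fintype V] [DecidableEq V]

/-- number of `r`-sets containing `A` and avoiding `B`. -/
theorem card_between (A B : Finset V) (hd : Disjoint A B) (r : ℕ) (hr : A.card ≤ r) :
    ((powersetCard r (univ : Finset V)).filter (fun X => A ⊆ X ∧ Disjoint X B)).card =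
      (Fintype.card V - A.card - B.card).choose (r - A.card) := by
  have e : (univ \ (A ∪ B) : Finset V).card = Fintype.card V - A.card - B.card := by
    rw [Finset.card_univ_sdiff, Finset.card_union_of_disjoint hd]; omega
  rw [← e, ← Finset.card_powersetCard]
  refine Finset.card_bij' (fun X _ => X \ A) (fun Y _ => A ∪ Y) ?_ ?_ ?_ ?_
  · intro X hX
    rw [Finset.mem_filter, Finset.mem_powersetCard] at hX
    obtain ⟨⟨_, hXr⟩, hAX, hXB⟩ := hX
    rw [Finset.mem_powersetCard]
    refine ⟨?_, ?_⟩
    · intro y hy
      rw [Finset.mem_sdiff] at hy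
      rw [Finset.mem_sdiff, Finset.mem_union]
      refine ⟨Finset.mem_univ _, ?_⟩
      rintro (h | h)
      · exact hy.2 h
      · exact (Finset.disjoint_left.1 hXB) hy.1 h
    · rw [Finset.card_sdiff_of_subset hAX, hXr]
  · intro Y hY
    rw [Finset.mem_powersetCard] at hY
    have hYA : Disjoint A Y := by
      rw [Finset.disjoint_left]; intro y hy hy'
      have := hY.1 hy'
      rw [Finset.mem_sdiff, Finset.mem_union] at this
      exact this.2 (Or.inl hy)
    have hYB : Disjoint Y B := by
      rw [Finset.disjoint_left]; intro y hy hy'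
      have := hY.1 hy
      rw [Finset.mem_sdiff, Finset.mem_union] at this
      exact this.2 (Or.inr hy')
    rw [Finset.mem_filter, Finset.mem_powersetCard]
    refine ⟨⟨Finset.subset_univ _, ?_⟩, Finset.subset_union_left, ?_⟩
    · rw [Finset.card_union_of_disjoint hYA, hY.2]; omega
    · rw [Finset.disjoint_union_left]; exact ⟨hd, hYB⟩
  · intro X hX
    rw [Finset.mem_filter] at hX
    exact Finset.union_sdiff_of_subset hX.2.1
  · intro Y hY
    rw [Finset.mem_powersetCard] at hY
    have hYA : Disjoint Y A := by
      rw [Finset.disjoint_left]; intro y hy hy'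
      have := hY.1 hy
      rw [Finset.mem_sdiff, Finset.mem_union] at this
      exact this.2 (Or.inl hy')
    show (A ∪ Y) \ A = Y
    rw [Finset.union_sdiff_left]
    exact Finset.sdiff_eq_self_of_disjoint hYA

end

open Classical in
theorem plus (h4 : S_choose4) : S_plus := by
  intro V _ _ k u v hk hn hu huv F hF hKF
  set n := Fintype.card V with hnV
  set h := n / 2 with hh
  set T := (n - 2 * k).choose (h - k) with hT
  have hT0 : 0 < T := Nat.choose_pos (by omega)
  -- bad sets
  let bad : ℕ → Finset (Finset V) := fun r =>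
    (powersetCard r (univ : Finset V)).filter (fun X => (F.filter (fun A => A ⊆ X)).card ≤ v - 1)
  let bd : ℕ → Finset V → ℕ := fun r A => ((bad r).filter (fun X => A ⊆ X)).card
  let F' := F.filter (fun A => 2 * bd h A < T ∧ 2 * bd (n - h) A < T)
  refine ⟨F', Finset.filter_subset _ _, ?_, ?_⟩
  · intro A hA B hB hd
    rw [Finset.mem_filter] at hA hB
    have hAc := hF A hA.1
    have hBc := hF B hB.1
    have hcnt := card_between A B hd h (by omega)
    rw [hAc, hBc, show Fintype.card V - k - k = n - 2 * k by omega, ← hT] at hcnt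
    set Q := (powersetCard h (univ : Finset V)).filter (fun X => A ⊆ X ∧ Disjoint X B) with hQ
    -- those that are bad
    have hb1 : (Q.filter (fun X => X ∈ bad h)).card ≤ bd h A := by
      apply Finset.card_le_card
      intro X hX
      rw [Finset.mem_filter, hQ, Finset.mem_filter] at hX
      rw [Finset.mem_filter]
      exact ⟨hX.2, hX.1.2.1⟩
    have hb2 : (Q.filter (fun X => Xᶜ ∈ bad (n - h))).card ≤ bd (n - h) B := by
      apply Finset.card_le_card_of_injOn (fun X => Xᶜ)
      · intro X hX
        simp only [Finset.coe_filter, Set.mem_setOf_eq] at hX ⊢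
        rw [hQ, Finset.mem_filter] at hX
        refine ⟨hX.2, ?_⟩
        intro y hy
        rw [Finset.mem_compl]
        intro hyX
        exact (Finset.disjoint_left.1 hX.1.2.2) hyX hy
      · intro X _ Y _ hXY
        exact compl_injective hXY
    have hex : ∃ X ∈ Q, X ∉ bad h ∧ Xᶜ ∉ bad (n - h) := by
      by_contra hcon
      push_neg at hcon
      have hsub : Q ⊆ Q.filter (fun X => X ∈ bad h) ∪ Q.filter (fun X => Xᶜ ∈ bad (n - h)) := by
        intro X hX
        by_cases h1 : X ∈ bad h
        · exact Finset.mem_union_left _ (Finset.mem_filter.2 ⟨hX, h1⟩)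
        · exact Finset.mem_union_right _ (Finset.mem_filter.2 ⟨hX, hcon X hX h1⟩)
      have h1 := Finset.card_le_card hsub
      have h2 := Finset.card_union_le (Q.filter (fun X => X ∈ bad h))
        (Q.filter (fun X => Xᶜ ∈ bad (n - h)))
      have h3 := hA.2.1
      have h4 := hB.2.2
      omega
    obtain ⟨X, hXQ, hX1, hX2⟩ := hex
    rw [hQ, Finset.mem_filter, Finset.mem_powersetCard] at hXQ
    have hXc : Xᶜ.card = n - h := by rw [Finset.card_compl, hXQ.1.2]
    have g1 : v ≤ (F.filter (fun A => A ⊆ X)).card := by
      by_contra hc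
      apply hX1
      simp only [bad]
      rw [Finset.mem_filter, Finset.mem_powersetCard]
      exact ⟨hXQ.1, by omega⟩
    have g2 : v ≤ (F.filter (fun A => A ⊆ Xᶜ)).card := by
      by_contra hc
      apply hX2
      simp only [bad]
      rw [Finset.mem_filter, Finset.mem_powersetCard]
      exact ⟨⟨Finset.subset_univ _, hXc⟩, by omega⟩
    obtain ⟨P, hP, hPc⟩ := Finset.exists_subset_card_eq (le_trans huv g1)
    obtain ⟨R, hR, hRc⟩ := Finset.exists_subset_card_eq g2
    obtain ⟨A', hA', B', hB', hnd⟩ := hKF P (hP.trans (Finset.filter_subset _ _)) R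
      (hR.trans (Finset.filter_subset _ _)) hPc hRc
    apply hnd
    have e1 := (Finset.mem_filter.1 (hP hA')).2
    have e2 := (Finset.mem_filter.1 (hR hB')).2
    exact Finset.disjoint_of_subset_left e1 (Finset.disjoint_of_subset_right e2
      disjoint_compl_right)
  · -- counting
    have hsum : ∀ r, ∑ A ∈ F, bd r A ≤ (v - 1) * n.choose r := by
      intro r
      have e1 : ∑ A ∈ F, bd r A = ∑ X ∈ bad r, (F.filter (fun A => A ⊆ X)).card := by
        simp only [bd, Finset.card_filter]
        exact Finset.sum_comm
      rw [e1]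
      have e2 : ∑ X ∈ bad r, (F.filter (fun A => A ⊆ X)).card ≤ ∑ X ∈ bad r, (v - 1) := by
        apply Finset.sum_le_sum
        intro X hX
        exact (Finset.mem_filter.1 hX).2
      rw [Finset.sum_const, smul_eq_mul] at e2
      refine le_trans e2 ?_
      rw [mul_comm]
      apply Nat.mul_le_mul_left
      refine le_trans (Finset.card_filter_le _ _) ?_
      rw [Finset.card_powersetCard, Finset.card_univ]
    have hlow : (F \ F').card * T ≤ ∑ A ∈ F, (2 * bd h A + 2 * bd (n - h) A) := by
      have e0 : (F \ F').card * T = ∑ A ∈ F \ F', T := by rw [Finset.sum_const, smul_eq_mul]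
      rw [e0]
      calc ∑ A ∈ F \ F', T ≤ ∑ A ∈ F \ F', (2 * bd h A + 2 * bd (n - h) A) := by
            apply Finset.sum_le_sum
            intro A hA
            rw [Finset.mem_sdiff] at hA
            by_contra hc
            push_neg at hc
            apply hA.2
            rw [Finset.mem_filter]
            exact ⟨hA.1, by omega, by omega⟩
        _ ≤ ∑ A ∈ F, (2 * bd h A + 2 * bd (n - h) A) :=
            Finset.sum_le_sum_of_subset Finset.sdiff_subset
    rw [Finset.sum_add_distrib, ← Finset.mul_sum, ← Finset.mul_sum] at hlow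
    have s1 := hsum h
    have s2 := hsum (n - h)
    rw [Nat.choose_symm (by omega : h ≤ n)] at s2
    have s3 : n.choose h ≤ 4 ^ k * T := h4 n k (by omega)
    have s4 : (F \ F').card * T ≤ ((v - 1) * 4 ^ (k + 1)) * T := by
      calc (F \ F').card * T ≤ 4 * ((v - 1) * n.choose h) := by omega
        _ ≤ 4 * ((v - 1) * (4 ^ k * T)) := by
            apply Nat.mul_le_mul_left; apply Nat.mul_le_mul_left; exact s3
        _ = ((v - 1) * 4 ^ (k + 1)) * T := by ring
    exact Nat.le_of_mul_le_mul_right s4 hT0

end Pool.Agent.H30.UI
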