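import Pool.Agent.H30.UI.Stubs

/-! UI-12. -/

namespace Pool.Agent.H30.UI

open Finset

theorem struct (hplus : S_plus) (hstab : S_stab) (hbin : S_binbig) : S_struct := by
  intro b hb ε hε L v
  obtain ⟨η, hη, k1, h1⟩ := hstab b hb ε hε L
  obtain ⟨k2, h2⟩ := hbin b hb (4 * ((v - 1 : ℕ) : ℝ) / η)
  refine ⟨max (max k1 k2) 1, ?_⟩
  intro V _ _ k u hk hkb hu huv F hF hKF hcard
  have hk1 : k1 ≤ k := le_trans (le_trans (le_max_left _ _) (le_max_left _ _)) hk
  have hk2 : k2 ≤ k := le_trans (le_trans (le_max_right _ _) (le_max_left _ _)) hk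
  have hk0 : 1 ≤ k := le_trans (le_max_right _ _) hk
  have hn2 : 2 * k ≤ Fintype.card V := by
    have h3 : (0 : ℝ) ≤ Fintype.card V := Nat.cast_nonneg _
    have h4 : (2 : ℝ) * k ≤ Fintype.card V := by nlinarith
    exact_mod_cast h4
  obtain ⟨F', hsub, hint, hrem⟩ := hplus V k u v hk0 hn2 hu huv F hF hKF
  have hremR : ((F \ F').card : ℝ) ≤ ((v - 1 : ℕ) : ℝ) * 4 ^ (k + 1) := by exact_mod_cast hrem
  have hsum := Finset.card_sdiff_add_card_eq_card hsub
  have hsumR : ((F \ F').card : ℝ) + F'.card = F.card := by exact_mod_cast hsum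
  have hcardR : ((Fintype.card V - 1).choose (k - 1) : ℝ) ≤ F.card := by exact_mod_cast hcard
  have hbig := h2 k (Fintype.card V) hk2 hkb
  have hsmall : ((v - 1 : ℕ) : ℝ) * 4 ^ (k + 1) ≤
      η * ((Fintype.card V - 1).choose (k - 1) : ℝ) := by
    have e : ((v - 1 : ℕ) : ℝ) * 4 ^ (k + 1) = η * (4 * ((v - 1 : ℕ) : ℝ) / η * 4 ^ k) := by
      field_simp; ring
    rw [e]
    exact mul_le_mul_of_nonneg_left hbig hη.le
  obtain ⟨x, hx⟩ := h1 V k hk1 hkb F' (fun A hA => hF A (hsub hA)) hint (by linarith)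
  refine ⟨x, ?_⟩
  have hs : F.filter (fun A => x ∉ A) ⊆ F'.filter (fun A => x ∉ A) ∪ (F \ F') := by
    intro A hA
    rw [Finset.mem_filter] at hA
    rw [Finset.mem_union, Finset.mem_filter, Finset.mem_sdiff]
    by_cases h : A ∈ F'
    · exact Or.inl ⟨h, hA.2⟩
    · exact Or.inr ⟨hA.1, h⟩
  have hc := le_trans (Finset.card_le_card hs) (Finset.card_union_le _ _)
  have hcR : ((F.filter (fun A => x ∉ A)).card : ℝ) ≤
      ((F'.filter (fun A => x ∉ A)).card : ℝ) + ((F \ F').card : ℝ) := by exact_mod_cast hc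
  linarith

end Pool.Agent.H30.UI
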