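import Pool.Agent.H30.UI.Stubs

/-! UI-16, UI-17, UI-11. -/

namespace Pool.Agent.H30.UI

open Finset

theorem ratio : S_ratio := by
  intro a b j j' hab hb hjj hj'
  have hb' : (0 : ℝ) < b := by exact_mod_cast hb
  have hr0 : (0 : ℝ) ≤ (a : ℝ) / b := by positivity
  induction j', hjj using Nat.le_induction with
  | base => simp
  | succ i hi ih =>
      have ih := ih (by omega)
      have e1 : ((a.choose (i + 1) : ℕ) : ℝ) * (i + 1) = a.choose i * ((a - i : ℕ) : ℝ) := by
        have := Nat.choose_succ_right_eq a i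
        exact_mod_cast this
      have e2 : ((b.choose (i + 1) : ℕ) : ℝ) * (i + 1) = b.choose i * ((b - i : ℕ) : ℝ) := by
        have := Nat.choose_succ_right_eq b i
        exact_mod_cast this
      have hai : ((a - i : ℕ) : ℝ) ≤ (a : ℝ) / b * ((b - i : ℕ) : ℝ) := by
        have hbi : ((b - i : ℕ) : ℝ) = (b : ℝ) - i := by
          rw [Nat.cast_sub (by omega)]
        rcases le_or_gt a i with h | h
        · rw [Nat.sub_eq_zero_of_le h, Nat.cast_zero]
          positivity
        · rw [hbi, Nat.cast_sub h.le, div_mul_eq_mul_div, le_div_iff₀ hb']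
          have h1 : (a : ℝ) ≤ b := by exact_mod_cast hab
          have h2 : (0 : ℝ) ≤ i := Nat.cast_nonneg _
          nlinarith
      have hi1 : (0 : ℝ) < (i : ℝ) + 1 := by positivity
      have hpow : ((a : ℝ) / b) ^ (i + 1 - j) = ((a : ℝ) / b) ^ (i - j) * ((a : ℝ) / b) := by
        rw [← pow_succ]; congr 1; omega
      have key : ((a.choose (i + 1) : ℕ) : ℝ) * b.choose j * (i + 1) ≤
          (a.choose j * b.choose (i + 1) * ((a : ℝ) / b) ^ (i + 1 - j)) * (i + 1) := by
        calc ((a.choose (i + 1) : ℕ) : ℝ) * b.choose j * (i + 1)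
            = (((a.choose (i + 1) : ℕ) : ℝ) * (i + 1)) * b.choose j := by ring
          _ = (a.choose i * b.choose j) * ((a - i : ℕ) : ℝ) := by rw [e1]; ring
          _ ≤ (a.choose j * b.choose i * ((a : ℝ) / b) ^ (i - j)) * ((a - i : ℕ) : ℝ) :=
              mul_le_mul_of_nonneg_right ih (by positivity)
          _ ≤ (a.choose j * b.choose i * ((a : ℝ) / b) ^ (i - j)) *
              ((a : ℝ) / b * ((b - i : ℕ) : ℝ)) := mul_le_mul_of_nonneg_left hai (by positivity)
          _ = (a.choose j * (b.choose i * ((b - i : ℕ) : ℝ)) *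
                (((a : ℝ) / b) ^ (i - j) * ((a : ℝ) / b))) := by ring
          _ = (a.choose j * b.choose (i + 1) * ((a : ℝ) / b) ^ (i + 1 - j)) * (i + 1) := by
              rw [← e2, hpow]; ring
      exact le_of_mul_le_mul_right key hi1

theorem down : S_down := by
  intro b j t hjt hb
  have hb' : (0 : ℝ) < b := by exact_mod_cast hb
  set c : ℝ := ((b : ℝ) - j - t) / b with hc
  have hc0 : 0 ≤ c := by
    rw [hc]; apply div_nonneg _ hb'.le
    have : ((j + t : ℕ) : ℝ) ≤ b := by exact_mod_cast hjt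
    push_cast at this; linarith
  have key : ∀ i, i ≤ t → (b.choose j : ℝ) * c ^ i ≤ (b - i).choose j := by
    intro i
    induction i with
    | zero => intro _; simp
    | succ i ih =>
        intro hi
        have ih := ih (by omega)
        -- (n - k) C(n,k) = n C(n-1,k)
        have e : ((b - i : ℕ) : ℝ) * ((b - (i + 1)).choose j : ℝ) =
            ((b - i).choose j : ℝ) * ((b - i - j : ℕ) : ℝ) := by
          have h1 := Nat.choose_mul_succ_eq (b - i - 1) j
          have h2 : (b - i - 1).succ = b - i := by omega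
          have h3 : b - i - 1 + 1 = b - i := by omega
          rw [h3] at h1
          have h4 : b - (i + 1) = b - i - 1 := by omega
          rw [h4]
          have : (b - i) * (b - i - 1).choose j = (b - i).choose j * (b - i - j) := by
            rw [mul_comm]; exact h1
          exact_mod_cast this
        have hbi : (0 : ℝ) < ((b - i : ℕ) : ℝ) := by
          have : 0 < b - i := by omega
          exact_mod_cast this
        have hcc : c * ((b - i : ℕ) : ℝ) ≤ ((b - i - j : ℕ) : ℝ) := by
          rw [hc, div_mul_eq_mul_div, div_le_iff₀ hb', Nat.cast_sub (by omega : j ≤ b - i),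
            Nat.cast_sub (by omega : i ≤ b)]
          have h1 : (i : ℝ) + 1 ≤ t := by exact_mod_cast hi
          have h2 : (0 : ℝ) ≤ i := Nat.cast_nonneg _
          have h3 : ((j + t : ℕ) : ℝ) ≤ b := by exact_mod_cast hjt
          push_cast at h3
          have h4 : (0 : ℝ) ≤ j := Nat.cast_nonneg _
          nlinarith
        have key2 : ((b.choose j : ℝ) * c ^ (i + 1)) * ((b - i : ℕ) : ℝ) ≤
            ((b - (i + 1)).choose j : ℝ) * ((b - i : ℕ) : ℝ) := by
          calc ((b.choose j : ℝ) * c ^ (i + 1)) * ((b - i : ℕ) : ℝ)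
              = ((b.choose j : ℝ) * c ^ i) * (c * ((b - i : ℕ) : ℝ)) := by ring
            _ ≤ ((b.choose j : ℝ) * c ^ i) * ((b - i - j : ℕ) : ℝ) :=
                mul_le_mul_of_nonneg_left hcc (by positivity)
            _ ≤ ((b - i).choose j : ℝ) * ((b - i - j : ℕ) : ℝ) :=
                mul_le_mul_of_nonneg_right ih (by positivity)
            _ = ((b - (i + 1)).choose j : ℝ) * ((b - i : ℕ) : ℝ) := by rw [← e]; ring
        exact le_of_mul_le_mul_right key2 hbi
  exact key t le_rfl

theorem binbig (hr : S_ratio) : S_binbig := by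
  intro b hb A
  -- everything from n ≥ (2+l) k
  rcases le_or_gt b 0 with hb0 | hb0
  · refine ⟨1, fun k n hk hkn => ?_⟩
    have h1 : (1 : ℝ) ≤ k := by exact_mod_cast hk
    have h2 : b * n ≤ 0 := mul_nonpos_of_nonpos_of_nonneg hb0 (Nat.cast_nonneg _)
    linarith
  · set q : ℝ := 1 / (2 * b) with hq
    have hq1 : 1 < q := by rw [hq, lt_div_iff₀ (by positivity)]; linarith
    have hlim := tendsto_pow_const_div_const_pow_of_one_lt 1 hq1
    have hpos : (0 : ℝ) < 1 / (4 * q * (|A| + 1)) := by positivity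
    have hev := (tendsto_order.1 hlim).2 _ hpos
    obtain ⟨k1, hk1⟩ := Filter.eventually_atTop.1 hev
    refine ⟨max k1 1, fun k n hk hkn => ?_⟩
    have hk1' : k1 ≤ k := le_trans (le_max_left _ _) hk
    have hk0 : 1 ≤ k := le_trans (le_max_right _ _) hk
    have hkR : (1 : ℝ) ≤ k := by exact_mod_cast hk0
    have h1 := hk1 k hk1'
    rw [pow_one, div_lt_div_iff₀ (by positivity) (by positivity)] at h1
    have hqn : 2 * q * k ≤ n := by
      rw [hq]
      have : (k : ℝ) / b ≤ n := by rw [div_le_iff₀ hb0]; linarith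
      calc 2 * (1 / (2 * b)) * (k : ℝ) = k / b := by field_simp
        _ ≤ n := this
    have hn2 : (2 * k : ℕ) ≤ n := by
      have : (2 : ℝ) * k ≤ n := by nlinarith
      exact_mod_cast this
    have hR := hr (2 * k - 1) (n - 1) 0 (k - 1) (by omega) (by omega) (by omega) (by omega)
    simp only [Nat.choose_zero_right, Nat.cast_one, mul_one, one_mul, Nat.sub_zero] at hR
    have hc1 : ((2 * k - 1 : ℕ) : ℝ) = 2 * k - 1 := by
      rw [Nat.cast_sub (by omega)]; push_cast; ring
    have hc2 : ((n - 1 : ℕ) : ℝ) = n - 1 := by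
      rw [Nat.cast_sub (by omega)]; push_cast; ring
    have hnR : (2 : ℝ) * k ≤ n := by exact_mod_cast hn2
    have hfrac : ((2 * k - 1 : ℕ) : ℝ) / ((n - 1 : ℕ) : ℝ) ≤ 1 / q := by
      rw [hc1, hc2, div_le_div_iff₀ (by linarith) (by linarith)]
      nlinarith
    have hfrac0 : 0 ≤ ((2 * k - 1 : ℕ) : ℝ) / ((n - 1 : ℕ) : ℝ) := by positivity
    have hpw : (((2 * k - 1 : ℕ) : ℝ) / ((n - 1 : ℕ) : ℝ)) ^ (k - 1) ≤ (1 / q) ^ (k - 1) :=
      pow_le_pow_left₀ hfrac0 hfrac _
    have hX : ((2 * k - 1).choose (k - 1) : ℝ) * q ^ (k - 1) ≤ ((n - 1).choose (k - 1) : ℝ) := by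
      have h2 : ((2 * k - 1).choose (k - 1) : ℝ) ≤ ((n - 1).choose (k - 1) : ℝ) * (1 / q) ^ (k - 1) :=
        le_trans hR (mul_le_mul_of_nonneg_left hpw (by positivity))
      have hq0 : 0 < q ^ (k - 1) := by positivity
      calc ((2 * k - 1).choose (k - 1) : ℝ) * q ^ (k - 1)
          ≤ ((n - 1).choose (k - 1) : ℝ) * (1 / q) ^ (k - 1) * q ^ (k - 1) :=
            mul_le_mul_of_nonneg_right h2 hq0.le
        _ = ((n - 1).choose (k - 1) : ℝ) * ((1 / q) * q) ^ (k - 1) := by rw [mul_pow]; ring
        _ = ((n - 1).choose (k - 1) : ℝ) := by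
            rw [one_div, inv_mul_cancel₀ (by positivity), one_pow, mul_one]
    -- central binomial
    have hcb : 4 ^ k ≤ 4 * k * (2 * k - 1).choose (k - 1) := by
      have h2 := Nat.four_pow_le_two_mul_self_mul_centralBinom k (by omega)
      have h3 : k.centralBinom = 2 * (2 * k - 1).choose (k - 1) := by
        rw [Nat.centralBinom_eq_two_mul_choose]
        obtain ⟨m, rfl⟩ : ∃ m, k = m + 1 := ⟨k - 1, by omega⟩
        have e1 : 2 * (m + 1) = (2 * m + 1) + 1 := by ring
        have e2 : 2 * (m + 1) - 1 = 2 * m + 1 := by omega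
        rw [e2, e1, Nat.choose_succ_succ]
        have e3 : (2 * m + 1).choose (m + 1) = (2 * m + 1).choose m := by
          have := Nat.choose_symm (n := 2 * m + 1) (k := m) (by omega)
          rw [← this]; congr 1; omega
        simp only [Nat.succ_eq_add_one, Nat.add_sub_cancel]
        rw [e3]; ring
      rw [h3] at h2
      calc 4 ^ k ≤ 2 * k * (2 * (2 * k - 1).choose (k - 1)) := h2
        _ = 4 * k * (2 * k - 1).choose (k - 1) := by ring
    have hcbR : (4 : ℝ) ^ k ≤ 4 * k * ((2 * k - 1).choose (k - 1) : ℝ) := by exact_mod_cast hcb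
    have hqk : q ^ k = q ^ (k - 1) * q := by rw [← pow_succ]; congr 1; omega
    have hfin : (|A| + 1) * (4 * k) ≤ q ^ (k - 1) := by
      have hqpos : 0 < q := by linarith
      rw [hqk] at h1
      have : ((|A| + 1) * (4 * k)) * q ≤ q ^ (k - 1) * q := by nlinarith
      exact le_of_mul_le_mul_right this hqpos
    have hA : A ≤ |A| + 1 := by linarith [le_abs_self A]
    have h4 : (0 : ℝ) < 4 ^ k := by positivity
    calc A * 4 ^ k ≤ (|A| + 1) * 4 ^ k := mul_le_mul_of_nonneg_right hA h4.le
      _ ≤ (|A| + 1) * (4 * k * ((2 * k - 1).choose (k - 1) : ℝ)) :=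
          mul_le_mul_of_nonneg_left hcbR (by positivity)
      _ = ((|A| + 1) * (4 * k)) * ((2 * k - 1).choose (k - 1) : ℝ) := by ring
      _ ≤ q ^ (k - 1) * ((2 * k - 1).choose (k - 1) : ℝ) :=
          mul_le_mul_of_nonneg_right hfin (by positivity)
      _ = ((2 * k - 1).choose (k - 1) : ℝ) * q ^ (k - 1) := by ring
      _ ≤ _ := hX

end Pool.Agent.H30.UI
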