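import Pool.Agent.H30.UI.Num

/-! UI-18. -/

namespace Pool.Agent.H30.UI

open Finset

/-- for large `m`, `1 + log(4m/β)/β ≤ ρ m/2`. -/
theorem log_small (β ρ : ℝ) (hβ : 0 < β) (hρ : 0 < ρ) : ∃ N : ℕ, ∀ m : ℕ, N ≤ m →
    1 + Real.log (4 * m / β) / β ≤ ρ * m / 2 := by
  have h1 := Real.isLittleO_log_id_atTop.def (c := ρ * β ^ 2 / 16) (by positivity)
  obtain ⟨X, hX⟩ := Filter.eventually_atTop.1 h1
  obtain ⟨N1, hN1⟩ := exists_nat_gt (X * β / 4)
  obtain ⟨N2, hN2⟩ := exists_nat_gt (4 / ρ)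
  obtain ⟨N3, hN3⟩ := exists_nat_gt (β / 4)
  refine ⟨N1 + N2 + N3 + 1, fun m hm => ?_⟩
  have hm1 : (N1 : ℝ) ≤ m := by exact_mod_cast (by omega : N1 ≤ m)
  have hm2 : (N2 : ℝ) ≤ m := by exact_mod_cast (by omega : N2 ≤ m)
  have hm3 : (N3 : ℝ) ≤ m := by exact_mod_cast (by omega : N3 ≤ m)
  have hx : X ≤ 4 * m / β := by
    rw [le_div_iff₀ hβ]; linarith
  have h2 := hX _ hx
  have hpos : 0 ≤ 4 * (m : ℝ) / β := by positivity
  have h3 : Real.log (4 * m / β) ≤ ρ * β ^ 2 / 16 * (4 * m / β) := by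
    have e1 : ‖(id (4 * (m : ℝ) / β))‖ = 4 * m / β := by
      rw [id, Real.norm_of_nonneg hpos]
    rw [e1] at h2
    exact le_trans (Real.le_norm_self _) h2
  have h4 : ρ * β ^ 2 / 16 * (4 * m / β) = (ρ * m / 4) * β := by field_simp; ring
  rw [h4] at h3
  have h5 : Real.log (4 * m / β) / β ≤ ρ * m / 4 := by
    rw [div_le_iff₀ hβ]; exact h3
  have h6 : 1 ≤ ρ * m / 4 := by
    have : 4 / ρ < m := lt_of_lt_of_le hN2 hm2
    rw [div_lt_iff₀ hρ] at this
    linarith
  linarith

theorem lemK (hupc : S_upc) (hshadow : S_shadow) (hratio : S_ratio) (hdown : S_down) :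
    S_lemK := by
  intro β ρ hβ hρ v
  obtain ⟨N, hN⟩ := log_small β ρ hβ hρ
  set L : ℕ := ⌈Real.log (2 / ρ) / β⌉₊ with hL
  set c0 : ℝ := ρ / 2 * (β / 4) ^ L with hc0
  have hc0pos : 0 < c0 := by positivity
  refine ⟨L, c0 / 2, by positivity, N + 2 * v + 2, ?_⟩
  intro V _ E G S k r u hk hkr hρr hrk hu huv hG hS hKF hcnt hsmall
  set m := E.card with hm
  rcases Nat.eq_zero_or_pos G.card with h0 | hGpos
  · rw [h0]; exact Nat.zero_le _
  have hGR : (0 : ℝ) < G.card := by exact_mod_cast hGpos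
  have hk1 : 1 ≤ k := by omega
  have hkR : (0 : ℝ) < k := by exact_mod_cast hk1
  have hm0' : (0 : ℝ) ≤ m := Nat.cast_nonneg _
  have hrkm : r + k ≤ m := by
    have : ((r + k : ℕ) : ℝ) ≤ m := by push_cast; nlinarith
    exact_mod_cast this
  have hm1 : 1 ≤ m := by omega
  have hmR : (0 : ℝ) < m := by exact_mod_cast hm1
  have hNm : N ≤ m := by omega
  have hρ1 : ρ ≤ 1 := by
    have h1 : (r : ℝ) ≤ m := by exact_mod_cast (by omega : r ≤ m)
    have h2 : ρ * m ≤ 1 * m := by linarith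
    exact le_of_mul_le_mul_right h2 hmR
  have hβ1 : β ≤ 1 := by
    have h1 : (0 : ℝ) ≤ r := Nat.cast_nonneg _
    have h2 : β * m ≤ 1 * m := by linarith
    exact le_of_mul_le_mul_right h2 hmR
  have hkm : (k : ℝ) ≤ m := by exact_mod_cast (by omega : k ≤ m)
  -- the number `y = 4m/(βk)`
  set y : ℝ := 4 * m / (β * k) with hy
  have hy4 : 1 ≤ y := by
    rw [hy, le_div_iff₀ (by positivity)]
    nlinarith
  have hypos : 0 < y := by linarith
  set X : ℝ := Real.log y with hX
  have hX0 : 0 ≤ X := Real.log_nonneg hy4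
  set T : ℕ := ⌈X / β⌉₊ with hT
  have hT1 : X ≤ β * T := by
    have := Nat.le_ceil (X / β)
    rw [div_le_iff₀ hβ] at this
    linarith
  have hT2 : (T : ℝ) ≤ X / β + 1 := (Nat.ceil_lt_add_one (div_nonneg hX0 hβ.le)).le
  have hTm : (T : ℝ) ≤ ρ * m / 2 := by
    have h1 := hN m hNm
    have h2 : X ≤ Real.log (4 * m / β) := by
      apply Real.log_le_log hypos
      rw [hy]
      apply div_le_div_of_nonneg_left (by positivity) hβ
      have : (1 : ℝ) ≤ k := by exact_mod_cast hk1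
      nlinarith
    have h3 : X / β ≤ Real.log (4 * m / β) / β := div_le_div_of_nonneg_right h2 hβ.le
    linarith
  have hTr : T < r := by
    have : (T : ℝ) < r := by nlinarith
    exact_mod_cast this
  -- lower bound for (ρ/2)^T
  have hpowT : c0 * ((k : ℝ) / m) ^ L ≤ (ρ / 2) ^ T := by
    have hρ2 : 0 < ρ / 2 := by positivity
    have hlog : Real.log (c0 * ((k : ℝ) / m) ^ L) ≤ Real.log ((ρ / 2) ^ T) := by
      have e1 : c0 * ((k : ℝ) / m) ^ L = ρ / 2 * (1 / y) ^ L := by
        rw [hc0, hy, mul_assoc, ← mul_pow]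
        congr 2
        field_simp
      rw [e1, Real.log_mul hρ2.ne' (by positivity), Real.log_pow, Real.log_pow, one_div,
        Real.log_inv, ← hX]
      have e2 : Real.log (ρ / 2) = - Real.log (2 / ρ) := by
        rw [← Real.log_inv]; congr 1; field_simp
      rw [e2]
      have hl : 0 ≤ Real.log (2 / ρ) := by
        apply Real.log_nonneg
        rw [le_div_iff₀ hρ]; linarith
      have hLc : Real.log (2 / ρ) / β ≤ L := Nat.le_ceil _
      have h3 : (T : ℝ) * Real.log (2 / ρ) ≤ (X / β + 1) * Real.log (2 / ρ) :=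
        mul_le_mul_of_nonneg_right hT2 hl
      have h4 : X * (Real.log (2 / ρ) / β) ≤ X * L := mul_le_mul_of_nonneg_left hLc hX0
      have h5 : (X / β + 1) * Real.log (2 / ρ) = X * (Real.log (2 / ρ) / β) + Real.log (2 / ρ) := by
        ring
      linarith
    exact (Real.log_le_log_iff (by positivity) (by positivity)).1 hlog
  -- the real number Q
  have hCk : (0 : ℝ) < (m.choose k : ℝ) := by
    exact_mod_cast Nat.choose_pos (by omega : k ≤ m)
  have hCr : (0 : ℝ) < (m.choose r : ℝ) := by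
    exact_mod_cast Nat.choose_pos (by omega : r ≤ m)
  have hsymm : m.choose (m - r) = m.choose r := Nat.choose_symm (by omega)
  set Q : ℝ := G.card * (m.choose r : ℝ) / (2 * (m.choose k : ℝ)) with hQ
  have hQpos : 0 < Q := by positivity
  have hZ := hupc V E G k r u hG hkr (by omega) hu hcnt
  rw [← hm] at hZ
  have hQZ : Q ≤ ((ZZ E G u r).card : ℝ) := by
    rw [hQ, div_le_iff₀ (by positivity)]
    have : ((G.card * m.choose r : ℕ) : ℝ) ≤ ((2 * m.choose k * (ZZ E G u r).card : ℕ) : ℝ) := by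
      exact_mod_cast hZ
    push_cast at this
    linarith
  set Nq : ℕ := ⌈Q⌉₊ with hNq
  have hNqZ : Nq ≤ (ZZ E G u r).card := Nat.ceil_le.2 hQZ
  have hNq1 : 1 ≤ Nq := Nat.one_le_iff_ne_zero.2 (by
    intro h
    rw [hNq, Nat.ceil_eq_zero] at h
    linarith)
  set P : ℕ → Prop := fun s => s.choose (m - r) ≤ Nq with hP
  set s := Nat.findGreatest P m with hs
  have hPs0 : P (m - r) := by
    show (m - r).choose (m - r) ≤ Nq
    rw [Nat.choose_self]; exact hNq1
  have hs1 : m - r ≤ s := Nat.le_findGreatest (Nat.sub_le _ _) hPs0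
  have hPs : P s := Nat.findGreatest_spec (Nat.sub_le m r) hPs0
  have hPs' : s.choose (m - r) ≤ Nq := hPs
  have hsT : s + T < m := by
    by_contra hcon
    have hcon' : m - T ≤ s := by omega
    rcases le_or_gt Q 1 with hQ1 | hQ1
    · have hN1 : Nq ≤ 1 := by
        rw [hNq]; exact Nat.ceil_le.2 (by simpa using hQ1)
      have h1 : (m - r + 1).choose (m - r) ≤ s.choose (m - r) :=
        Nat.choose_le_choose _ (by omega)
      have h2 : (m - r + 1).choose (m - r) = m - r + 1 := by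
        rw [← Nat.choose_symm (by omega : m - r ≤ m - r + 1)]
        rw [show m - r + 1 - (m - r) = 1 by omega, Nat.choose_one_right]
      omega
    · have hNq2 : (Nq : ℝ) ≤ 2 * Q := by
        have := (Nat.ceil_lt_add_one hQpos.le).le
        rw [← hNq] at this
        linarith
      have h1 : (m - T).choose (m - r) ≤ s.choose (m - r) := Nat.choose_le_choose _ hcon'
      have h2 := hdown m (m - r) T (by omega) (by omega)
      have h3 : (ρ / 2) ^ T ≤ (((m : ℝ) - ((m - r : ℕ) : ℝ) - T) / m) ^ T := by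
        apply pow_le_pow_left₀ (by positivity)
        rw [le_div_iff₀ hmR, Nat.cast_sub (by omega : r ≤ m)]
        linarith
      have h4 : (m.choose r : ℝ) * (c0 * ((k : ℝ) / m) ^ L) ≤ Nq := by
        calc (m.choose r : ℝ) * (c0 * ((k : ℝ) / m) ^ L) ≤ (m.choose r : ℝ) * (ρ / 2) ^ T :=
              mul_le_mul_of_nonneg_left hpowT hCr.le
          _ ≤ (m.choose r : ℝ) * (((m : ℝ) - ((m - r : ℕ) : ℝ) - T) / m) ^ T :=
              mul_le_mul_of_nonneg_left h3 hCr.le
          _ = (m.choose (m - r) : ℝ) * (((m : ℝ) - ((m - r : ℕ) : ℝ) - T) / m) ^ T := by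
              rw [hsymm]
          _ ≤ ((m - T).choose (m - r) : ℝ) := h2
          _ ≤ (s.choose (m - r) : ℝ) := by exact_mod_cast h1
          _ ≤ Nq := by exact_mod_cast hPs'
      have h5 : 2 * Q ≤ c0 / 2 * ((k : ℝ) / m) ^ L * (m.choose r : ℝ) := by
        have e1 : 2 * Q = G.card * ((m.choose r : ℝ) / (m.choose k : ℝ)) := by
          rw [hQ]; field_simp
        rw [e1]
        calc (G.card : ℝ) * ((m.choose r : ℝ) / (m.choose k : ℝ))
            ≤ (c0 / 2 * ((k : ℝ) / m) ^ L * (m.choose k : ℝ)) *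
              ((m.choose r : ℝ) / (m.choose k : ℝ)) :=
              mul_le_mul_of_nonneg_right hsmall (by positivity)
          _ = c0 / 2 * ((k : ℝ) / m) ^ L * (m.choose r : ℝ) := by field_simp
      have h6 : 0 < (m.choose r : ℝ) * (c0 * ((k : ℝ) / m) ^ L) := by positivity
      nlinarith
  -- main estimate
  have hnP : ¬ P (s + 1) := Nat.findGreatest_is_greatest (Nat.lt_succ_self _) (by omega)
  have hQs : Q ≤ ((s + 1).choose (m - r) : ℝ) := by
    have h1 : Nq < (s + 1).choose (m - r) := by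
      by_contra hc
      exact hnP (not_lt.1 hc)
    have h2 : Q ≤ Nq := Nat.le_ceil _
    have h3 : (Nq : ℝ) ≤ ((s + 1).choose (m - r) : ℝ) := by exact_mod_cast h1.le
    linarith
  have hR := hratio (s + 1) m k (m - r) (by omega) (by omega) (by omega) (Nat.sub_le _ _)
  rw [hsymm] at hR
  set e : ℕ := m - r - k with he
  have hexp : (((s + 1 : ℕ) : ℝ) / m) ^ e ≤ β * k / (4 * m) := by
    have hb : ((s + 1 : ℕ) : ℝ) / m ≤ Real.exp (-((T : ℝ) / m)) := by
      have h1 : ((s + 1 : ℕ) : ℝ) / m ≤ 1 - (T : ℝ) / m := by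
        rw [div_le_iff₀ hmR]
        have h2 : ((s + 1 : ℕ) : ℝ) + T ≤ m := by exact_mod_cast (by omega : s + 1 + T ≤ m)
        have h3 : (1 - (T : ℝ) / m) * m = m - T := by field_simp
        rw [h3]; linarith
      have h4 := Real.add_one_le_exp (-((T : ℝ) / m))
      linarith
    have h1 : (((s + 1 : ℕ) : ℝ) / m) ^ e ≤ Real.exp (-((T : ℝ) / m)) ^ e :=
      pow_le_pow_left₀ (by positivity) hb _
    have h2 : Real.exp (-((T : ℝ) / m)) ^ e = Real.exp (-((T : ℝ) * e / m)) := by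
      rw [← Real.exp_nat_mul]; congr 1; ring
    have hem : β * m ≤ e := by
      rw [he, Nat.cast_sub (by omega : k ≤ m - r), Nat.cast_sub (by omega : r ≤ m)]
      linarith
    have h3 : Real.exp (-((T : ℝ) * e / m)) ≤ Real.exp (-X) := by
      apply Real.exp_le_exp.2
      have h4 : β * T ≤ (T : ℝ) * e / m := by
        rw [le_div_iff₀ hmR]
        have : (0 : ℝ) ≤ T := Nat.cast_nonneg _
        nlinarith
      linarith
    have h5 : Real.exp (-X) = β * k / (4 * m) := by
      rw [hX, Real.exp_neg, Real.exp_log hypos, hy, inv_div]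
    rw [h2] at h1
    linarith
  have hGub : (G.card : ℝ) ≤ ((s + 1).choose k : ℝ) * (β * k / (2 * m)) := by
    have h1 : (G.card : ℝ) * (m.choose r : ℝ) = Q * (2 * (m.choose k : ℝ)) := by
      rw [hQ]; field_simp
    have h2 : (G.card : ℝ) * (m.choose r : ℝ) ≤
        (((s + 1).choose k : ℝ) * (β * k / (2 * m))) * (m.choose r : ℝ) := by
      calc (G.card : ℝ) * (m.choose r : ℝ) = Q * (2 * (m.choose k : ℝ)) := h1
        _ ≤ ((s + 1).choose (m - r) : ℝ) * (2 * (m.choose k : ℝ)) :=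
            mul_le_mul_of_nonneg_right hQs (by positivity)
        _ = 2 * (((s + 1).choose (m - r) : ℝ) * (m.choose k : ℝ)) := by ring
        _ ≤ 2 * (((s + 1).choose k : ℝ) * (m.choose r : ℝ) * (((s + 1 : ℕ) : ℝ) / m) ^ e) := by
            apply mul_le_mul_of_nonneg_left _ (by norm_num)
            exact hR
        _ ≤ 2 * (((s + 1).choose k : ℝ) * (m.choose r : ℝ) * (β * k / (4 * m))) := by
            apply mul_le_mul_of_nonneg_left _ (by norm_num)
            exact mul_le_mul_of_nonneg_left hexp (by positivity)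
        _ = (((s + 1).choose k : ℝ) * (β * k / (2 * m))) * (m.choose r : ℝ) := by
            field_simp; ring
    exact le_of_mul_le_mul_right h2 hCr
  -- lower bound for M
  have hSh := hshadow V E G S k r s u v hk1 (by omega) hu (by omega) hKF hrkm hs1
    (le_trans hPs' hNqZ)
  rw [← hm] at hSh
  have hSk : ((s + 1).choose k : ℝ) * β ≤ (s.choose k : ℝ) := by
    have h1 := Nat.choose_mul_succ_eq s k
    have h1R : (s.choose k : ℝ) * ((s : ℝ) + 1) = ((s + 1).choose k : ℝ) * ((s + 1 - k : ℕ) : ℝ) := by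
      exact_mod_cast h1
    have hsk : β * ((s : ℝ) + 1) ≤ ((s + 1 - k : ℕ) : ℝ) := by
      rw [Nat.cast_sub (by omega : k ≤ s + 1)]
      have h2 : ((m - r : ℕ) : ℝ) ≤ s := by exact_mod_cast hs1
      rw [Nat.cast_sub (by omega : r ≤ m)] at h2
      have h3 : (s : ℝ) + 1 ≤ m := by exact_mod_cast (by omega : s + 1 ≤ m)
      push_cast
      nlinarith
    have hspos : (0 : ℝ) < (s : ℝ) + 1 := by positivity
    have h4 : (((s + 1).choose k : ℝ) * β) * ((s : ℝ) + 1) ≤ (s.choose k : ℝ) * ((s : ℝ) + 1) := by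
      rw [h1R]
      calc (((s + 1).choose k : ℝ) * β) * ((s : ℝ) + 1)
          = ((s + 1).choose k : ℝ) * (β * ((s : ℝ) + 1)) := by ring
        _ ≤ _ := mul_le_mul_of_nonneg_left hsk (Nat.cast_nonneg _)
    exact le_of_mul_le_mul_right h4 hspos
  have hfin : (G.card : ℝ) ≤ ((powersetCard (k - 1) E \ S).card : ℝ) := by
    have hShR : (((k + 1 - v : ℕ) : ℝ)) * (s.choose k : ℝ) ≤
        ((m + 1 - k : ℕ) : ℝ) * ((powersetCard (k - 1) E \ S).card : ℝ) := by
      exact_mod_cast hSh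
    have hkv : (k : ℝ) / 2 ≤ ((k + 1 - v : ℕ) : ℝ) := by
      have : k ≤ 2 * (k + 1 - v) := by omega
      have : (k : ℝ) ≤ 2 * ((k + 1 - v : ℕ) : ℝ) := by exact_mod_cast this
      linarith
    have hmk : ((m + 1 - k : ℕ) : ℝ) ≤ m := by exact_mod_cast (by omega : m + 1 - k ≤ m)
    have h1 : (k : ℝ) / 2 * (((s + 1).choose k : ℝ) * β) ≤
        (m : ℝ) * ((powersetCard (k - 1) E \ S).card : ℝ) := by
      calc (k : ℝ) / 2 * (((s + 1).choose k : ℝ) * β) ≤ ((k + 1 - v : ℕ) : ℝ) * (s.choose k : ℝ) := by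
            apply mul_le_mul hkv hSk (by positivity) (Nat.cast_nonneg _)
        _ ≤ ((m + 1 - k : ℕ) : ℝ) * ((powersetCard (k - 1) E \ S).card : ℝ) := hShR
        _ ≤ _ := mul_le_mul_of_nonneg_right hmk (Nat.cast_nonneg _)
    have h2 : ((s + 1).choose k : ℝ) * (β * k / (2 * m)) =
        ((k : ℝ) / 2 * (((s + 1).choose k : ℝ) * β)) / m := by
      field_simp
    calc (G.card : ℝ) ≤ ((s + 1).choose k : ℝ) * (β * k / (2 * m)) := hGub
      _ = ((k : ℝ) / 2 * (((s + 1).choose k : ℝ) * β)) / m := h2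
      _ ≤ ((m : ℝ) * ((powersetCard (k - 1) E \ S).card : ℝ)) / m :=
          div_le_div_of_nonneg_right h1 hmR.le
      _ = _ := by field_simp
  exact_mod_cast hfin

end Pool.Agent.H30.UI
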