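import Pool.Agent.H30.UI.Num

/-! UI-31. -/

namespace Pool.Agent.H30.UI

open Finset

theorem A1 (hstruct : S_struct) (hK : S_lemK) (hone : S_one) (hn3 : S_n3) (hn4 : S_n4)
    (hsplit : S_split) : S_A1 := by
  intro u v hu huv
  obtain ⟨L, εK, hεK, kK, HK⟩ := hK (1 / 6) (1 / 4) (by norm_num) (by norm_num) v
  obtain ⟨kS, HS⟩ := hstruct (1 / 4) (by norm_num) (εK / 4) (by positivity) L v
  obtain ⟨k3, H3⟩ := hn3
  obtain ⟨ka, Ha⟩ := pow_ev (v + 1) 5 5.5 (by norm_num) (by norm_num)
  obtain ⟨kb, Hb⟩ := pow_ev (8 * v) 4 5 (by norm_num) (by norm_num)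
  obtain ⟨kc, Hc⟩ := pow_ev (2 * u) 3 5 (by norm_num) (by norm_num)
  refine ⟨kK + kS + k3 + ka + kb + kc + 10, ?_⟩
  intro V _ _ k hk hn F hF hKF
  set n := Fintype.card V with hnV
  have hn4k : 4 * k ≤ n := le_trans (Nat.mul_le_mul_right k (by omega)) hn
  have hn2k : 2 * k ≤ n := by omega
  rcases Nat.lt_or_ge F.card ((n - 1).choose (k - 1)) with hlt | hge
  · omega
  obtain ⟨x, hx⟩ := HS V k u (by omega) (by
    have : (4 : ℝ) * k ≤ n := by exact_mod_cast hn4k
    rw [← hnV]; linarith) hu huv F hF hKF hge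
  rw [← hnV] at hx
  obtain ⟨S, hSsub, hKF', hcard, hM⟩ := hsplit V x F k u v (by omega) hF hKF
  rw [← hnV] at hM
  set G := F.filter (fun A => x ∉ A) with hGdef
  set E := (univ.erase x : Finset V) with hE
  have hEc : E.card = n - 1 := by
    rw [hE, Finset.card_erase_of_mem (Finset.mem_univ _), Finset.card_univ]
  have hG : ∀ A ∈ G, A ⊆ E ∧ A.card = k := by
    intro A hA
    rw [hGdef, Finset.mem_filter] at hA
    refine ⟨fun y hy => ?_, hF A hA.1⟩
    rw [hE, Finset.mem_erase]
    exact ⟨fun h => hA.2 (h ▸ hy), Finset.mem_univ _⟩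
  suffices hgoal : G.card ≤ (powersetCard (k - 1) E \ S).card + (u - 1) by omega
  set M := (powersetCard (k - 1) E \ S).card with hMdef
  rcases Nat.lt_or_ge G.card u with hGu | hGu
  · omega
  obtain ⟨U, hUG, hUc⟩ := Finset.exists_subset_card_eq hGu
  have hUn : (U.biUnion id).card ≤ u * k := by
    rw [← hUc]
    exact Finset.card_biUnion_le_card_mul _ _ _ (fun A hA => (hG A (hUG hA)).2.le)
  have h1 := hone V E G S k u v (by omega) hKF' U hUG hUc (fun A hA => (hG A (hUG hA)).1)
  rw [hEc] at h1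
  have hz : 3 * k ≤ (n - 1 - (U.biUnion id).card) + 1 := by
    have e : (u + 3) * k = u * k + 3 * k := by ring
    omega
  have h3 := H3 k _ (by omega) hz
  have h1R : ((n - 1 - (U.biUnion id).card).choose (k - 1) : ℝ) ≤ M + ((v - 1 : ℕ) : ℝ) := by
    exact_mod_cast h1
  have hv1 : ((v - 1 : ℕ) : ℝ) = (v : ℝ) - 1 := by
    rw [Nat.cast_sub (by omega)]; simp
  have ha := Ha k (by omega)
  have hb := Hb k (by omega)
  have hc := Hc k (by omega)
  have h5pos : (1 : ℝ) ≤ 5 ^ k := one_le_pow₀ (by norm_num)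
  have hvR : (1 : ℝ) ≤ v := by exact_mod_cast (by omega : 1 ≤ v)
  have hM5 : (5 : ℝ) ^ k ≤ M := by
    rw [hv1] at h1R
    nlinarith
  rcases Nat.lt_or_ge (5 ^ k) G.card with hbig | hsm
  · -- Kruskal-Katona range
    have hbigR : (5 : ℝ) ^ k < G.card := by exact_mod_cast hbig
    have hGs : (G.card : ℝ) ≤ εK / 2 * ((k : ℝ) / n) ^ L * (n.choose k : ℝ) := by
      have e1 : ((v - 1 : ℕ) : ℝ) * 4 ^ (k + 1) ≤ G.card / 2 := by
        rw [hv1, pow_succ]
        have : (0 : ℝ) < 4 ^ k := by positivity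
        nlinarith
      linarith
    have hGs' := le_trans hGs (pass εK hεK.le n k L (by omega) hn2k)
    have := HK V E G S k (E.card / 2) u (by omega) (by rw [hEc]; omega)
      (by
        have : E.card ≤ 4 * (E.card / 2) := by rw [hEc]; omega
        have : (E.card : ℝ) ≤ 4 * ((E.card / 2 : ℕ) : ℝ) := by exact_mod_cast this
        linarith)
      (by
        have : 6 * (E.card / 2) + 6 * k + E.card ≤ 6 * E.card := by rw [hEc]; omega
        have : (6 : ℝ) * ((E.card / 2 : ℕ) : ℝ) + 6 * k + E.card ≤ 6 * E.card := by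
          exact_mod_cast this
        linarith)
      hu huv hG hSsub hKF'
      (by
        have e1 := hn4 E.card k (by rw [hEc]; omega)
        have e2 : 2 * (u - 1) * 3 ^ k ≤ G.card := by
          have : ((2 * (u - 1) * 3 ^ k : ℕ) : ℝ) ≤ G.card := by
            have hu1 : (((u - 1 : ℕ)) : ℝ) ≤ u := by exact_mod_cast Nat.sub_le _ _
            push_cast
            have h30 : (0 : ℝ) < 3 ^ k := by positivity
            nlinarith
          exact_mod_cast this
        calc 2 * (u - 1) * E.card.choose k ≤ 2 * (u - 1) * (3 ^ k * (E.card / 2).choose k) :=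
              Nat.mul_le_mul_left _ e1
          _ = (2 * (u - 1) * 3 ^ k) * (E.card / 2).choose k := by ring
          _ ≤ G.card * (E.card / 2).choose k := Nat.mul_le_mul_right _ e2)
      (by rw [hEc]; exact hGs')
    omega
  · have : (G.card : ℝ) ≤ M := by
      have : (G.card : ℝ) ≤ 5 ^ k := by exact_mod_cast hsm
      linarith
    have : G.card ≤ M := by exact_mod_cast this
    omega

end Pool.Agent.H30.UI
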