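import Pool.Agent.H30.UI.Num

/-! UI-32, UI-33. -/

namespace Pool.Agent.H30.UI

open Finset

theorem gm_ge (n k u : ℕ) : u - 1 ≤ gm n k u := by
  unfold gm; split_ifs <;> omega

/-- the family `G` is small. -/
theorem smallG {εK : ℝ} (hεK : 0 < εK) {n k L v t : ℕ} (hv : 1 ≤ v) (hk : 1 ≤ k) (hn2 : 2 * k ≤ n)
    (hnt : n ≤ t * k)
    (hbin : 8 * (v : ℝ) * t ^ L / εK * 4 ^ k ≤ ((n - 1).choose (k - 1) : ℝ))
    {g : ℝ} (hg : g ≤ εK / 4 * ((k : ℝ) / n) ^ L * (n.choose k : ℝ) + ((v - 1 : ℕ) : ℝ) * 4 ^ (k + 1)) :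
    g ≤ εK * ((k : ℝ) / ((n - 1 : ℕ) : ℝ)) ^ L * ((n - 1).choose k : ℝ) := by
  have h1 := pass (εK / 2) (by positivity) n k L hk hn2
  have hv1 : ((v - 1 : ℕ) : ℝ) ≤ v := by exact_mod_cast Nat.sub_le _ _
  have ht0 : 0 < t := by
    rcases Nat.eq_zero_or_pos t with h | h
    · subst h; omega
    · exact h
  have hm0 : 0 < n - 1 := by omega
  have hmR : (0 : ℝ) < ((n - 1 : ℕ) : ℝ) := by exact_mod_cast hm0
  have htR : (0 : ℝ) < t := by exact_mod_cast ht0
  have hkR : (0 : ℝ) < k := by exact_mod_cast hk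
  have hfr : (1 : ℝ) / t ≤ (k : ℝ) / ((n - 1 : ℕ) : ℝ) := by
    rw [div_le_div_iff₀ htR hmR, one_mul]
    have : n - 1 ≤ k * t := by rw [mul_comm]; omega
    exact_mod_cast this
  have hcc : (n - 1).choose (k - 1) ≤ (n - 1).choose k := by
    obtain ⟨i, rfl⟩ : ∃ i, k = i + 1 := ⟨k - 1, by omega⟩
    have h2 := Nat.choose_succ_right_eq (n - 1) i
    simp only [Nat.add_sub_cancel]
    have h3 : i + 1 ≤ n - 1 - i := by omega
    have h4 : (n - 1).choose i * (i + 1) ≤ (n - 1).choose (i + 1) * (i + 1) := by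
      rw [h2]; exact Nat.mul_le_mul_left _ h3
    exact Nat.le_of_mul_le_mul_right h4 (by omega)
  have hccR : ((n - 1).choose (k - 1) : ℝ) ≤ ((n - 1).choose k : ℝ) := by exact_mod_cast hcc
  have hpow : ((1 : ℝ) / t) ^ L ≤ ((k : ℝ) / ((n - 1 : ℕ) : ℝ)) ^ L :=
    pow_le_pow_left₀ (by positivity) hfr _
  have h4 : ((v - 1 : ℕ) : ℝ) * 4 ^ (k + 1) ≤
      εK / 2 * ((k : ℝ) / ((n - 1 : ℕ) : ℝ)) ^ L * ((n - 1).choose k : ℝ) := by
    calc ((v - 1 : ℕ) : ℝ) * 4 ^ (k + 1) ≤ v * 4 ^ (k + 1) :=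
          mul_le_mul_of_nonneg_right hv1 (by positivity)
      _ = εK / 2 * (1 / (t : ℝ)) ^ L * (8 * (v : ℝ) * t ^ L / εK * 4 ^ k) := by
          rw [one_div, inv_pow, pow_succ]
          field_simp; ring
      _ ≤ εK / 2 * (1 / (t : ℝ)) ^ L * ((n - 1).choose k : ℝ) := by
          apply mul_le_mul_of_nonneg_left (le_trans hbin hccR) (by positivity)
      _ ≤ _ := by
          apply mul_le_mul_of_nonneg_right _ (by positivity)
          exact mul_le_mul_of_nonneg_left hpow (by positivity)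
  have e : εK / 2 / 2 = εK / 4 := by ring
  rw [e] at h1
  calc g ≤ _ := hg
    _ ≤ εK / 2 * ((k : ℝ) / ((n - 1 : ℕ) : ℝ)) ^ L * ((n - 1).choose k : ℝ) +
        εK / 2 * ((k : ℝ) / ((n - 1 : ℕ) : ℝ)) ^ L * ((n - 1).choose k : ℝ) := add_le_add h1 h4
    _ = _ := by ring

theorem A2 (hbin : S_binbig) (hstruct : S_struct) (hK : S_lemK) (hone : S_one) (hexU : S_exU)
    (hpower : S_power) (hn1 : S_n1) (hn2' : S_n2) (hpack : S_pack) (hsplit : S_split) : S_A2 := by
  intro u v hu huv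
  obtain ⟨L, εK, hεK, kK, HK⟩ := hK (1 / (200 * ((u : ℝ) + 3))) (1 / 2) (by positivity)
    (by norm_num) v
  obtain ⟨kS, HS⟩ := hstruct (0.4) (by norm_num) (εK / 4) (by positivity) L v
  obtain ⟨kB, HB⟩ := hbin 0.4 (by norm_num) (8 * (v : ℝ) * ((u + 3 : ℕ) : ℝ) ^ L / εK)
  obtain ⟨k1, H1⟩ := hn1
  obtain ⟨k2, H2⟩ := hn2'
  obtain ⟨ka, Ha⟩ := pow_ev (v + 1) 1.9 1.93 (by norm_num) (by norm_num)
  obtain ⟨kc, Hc⟩ := pow_ev (6 * u) 1.86 1.9 (by norm_num) (by norm_num)
  refine ⟨kK + kS + kB + k1 + k2 + ka + kc + 600 + 400 * (u + 3) * u ^ 2 + 2 * v, ?_⟩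
  intro V _ _ k hk hj1 hj2 hnu F hF hKF
  set n := Fintype.card V with hnV
  have hw : (u + 1) * k = u * k + k := by ring
  have huk : 2 * k ≤ u * k := Nat.mul_le_mul_right k hu
  have h599 : 599 * k ≤ 200 * n := by omega
  have hn2k : 2 * k ≤ n := by omega
  have hk1 : 1 ≤ k := by omega
  rcases Nat.lt_or_ge F.card ((n - 1).choose (k - 1)) with hlt | hge
  · omega
  obtain ⟨x, hx⟩ := HS V k u (by omega) (by
    have : (599 : ℝ) * k ≤ 200 * n := by exact_mod_cast h599
    rw [← hnV]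
    have hk0 : (0 : ℝ) ≤ k := Nat.cast_nonneg _
    norm_num; linarith) (by omega) huv F hF hKF hge
  rw [← hnV] at hx
  obtain ⟨S, hSsub, hKF', hcard, hM⟩ := hsplit V x F k u v hk1 hF hKF
  rw [← hnV] at hM
  set G := F.filter (fun A => x ∉ A) with hGdef
  set E := (univ.erase x : Finset V) with hE
  have hEc : E.card = n - 1 := by
    rw [hE, Finset.card_erase_of_mem (Finset.mem_univ _), Finset.card_univ]
  have hG : ∀ A ∈ G, A ⊆ E ∧ A.card = k := by
    intro A hA
    rw [hGdef, Finset.mem_filter] at hA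
    refine ⟨fun y hy => ?_, hF A hA.1⟩
    rw [hE, Finset.mem_erase]
    exact ⟨fun h => hA.2 (h ▸ hy), Finset.mem_univ _⟩
  set M := (powersetCard (k - 1) E \ S).card with hMdef
  have hgm := gm_ge n k u
  rcases Nat.lt_or_ge G.card u with hGu | hGu
  · omega
  by_cases hcase : ∀ U ⊆ G, U.card = u → E.card + 1 ≤ (U.biUnion id).card + k
  · obtain ⟨pa, pb⟩ := hpack V E G k u hG hk1 hu hcase
    rw [hEc, show n - 1 + 1 = n by omega] at pa pb
    by_cases hc1 : (u + 1) * k < n
    · have := pa hc1; omega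
    · obtain ⟨p1, p2⟩ := pb (by omega) hj2
      have : G.card ≤ gm n k u := by
        unfold gm
        rw [if_neg hc1]
        split_ifs with h
        · exact p2 h
        · exact p1
      omega
  · push Not at hcase
    obtain ⟨U, hUG, hUc, hUn⟩ := hcase
    have h1 := hone V E G S k u v (by omega) hKF' U hUG hUc (fun A hA => (hG A (hUG hA)).1)
    have h1' : k ≤ M + (v - 1) := by
      have e1 : k.choose (k - 1) ≤ (E.card - (U.biUnion id).card).choose (k - 1) :=
        Nat.choose_le_choose _ (by omega)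
      have e2 : k.choose (k - 1) = k := by
        rw [← Nat.choose_symm (by omega : k - 1 ≤ k)]
        rw [show k - (k - 1) = 1 by omega, Nat.choose_one_right]
      omega
    suffices hgoal : G.card ≤ M by omega
    rcases Nat.lt_or_ge (k + 1) (G.card + v) with hbg | hsm
    swap
    · omega
    -- now |G| is large
    have hku : 400 * (u + 3) * u ^ 2 + 600 ≤ k := by omega
    have hG2 : k ≤ 2 * G.card := by omega
    obtain ⟨U', hUG', hUc', hUz⟩ := hexU V E G k u hG (by omega) hGu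
      (by rw [← Finset.card_pos, hEc]; omega)
    have hm0 : (0 : ℝ) < E.card := by rw [hEc]; exact_mod_cast (by omega : 0 < n - 1)
    have hkR : (0 : ℝ) < k := by exact_mod_cast hk1
    have hEn : E.card ≤ (u + 3) * k := by omega
    have hEnR : (E.card : ℝ) ≤ (u + 3) * k := by exact_mod_cast hEn
    have hpw := hpower u hu ((E.card : ℝ) / k) (by
      rw [le_div_iff₀ hkR]
      have e1 : 200 * ((u + 1) * k) ≤ 200 * (E.card + 1) + k := by rw [hEc]; omega
      have e1R : (200 : ℝ) * ((u + 1) * k) ≤ 200 * (E.card + 1) + k := by exact_mod_cast e1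
      have e2 : (600 : ℝ) ≤ k := by exact_mod_cast (by omega : 600 ≤ k)
      nlinarith)
    have hmain : 1.325 * (k : ℝ) ≤ (E.card : ℝ) * (1 - (k : ℝ) / E.card) ^ u := by
      have e1 : (1 : ℝ) / ((E.card : ℝ) / k) = k / E.card := by rw [one_div_div]
      rw [e1] at hpw
      calc 1.325 * (k : ℝ) ≤ ((E.card : ℝ) / k * (1 - (k : ℝ) / E.card) ^ u) * k :=
            mul_le_mul_of_nonneg_right hpw hkR.le
        _ = (E.card : ℝ) * (1 - (k : ℝ) / E.card) ^ u := by field_simp
    have hGpos : (0 : ℝ) < G.card := by exact_mod_cast (by omega : 0 < G.card)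
    have herr : (E.card : ℝ) * (u : ℝ) ^ 2 / G.card ≤ 0.005 * k := by
      rw [div_le_iff₀ hGpos]
      have e1 : (k : ℝ) ≤ 2 * G.card := by exact_mod_cast hG2
      have e2 : (400 : ℝ) * (u + 3) * u ^ 2 + 600 ≤ k := by exact_mod_cast hku
      have e3 : (E.card : ℝ) * (u : ℝ) ^ 2 ≤ ((u + 3) * u ^ 2) * k := by
        have : (0 : ℝ) ≤ (u : ℝ) ^ 2 := by positivity
        nlinarith
      have e4 : (0 : ℝ) ≤ (u + 3) * u ^ 2 := by positivity
      nlinarith
    have hUle : (U'.biUnion id).card ≤ E.card := by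
      apply Finset.card_le_card
      intro y hy
      rw [Finset.mem_biUnion] at hy
      obtain ⟨A, hA, hyA⟩ := hy
      exact (hG A (hUG' hA)).1 hyA
    have hzR : (1.32 : ℝ) * k ≤ ((E.card - (U'.biUnion id).card : ℕ) : ℝ) := by
      rw [Nat.cast_sub hUle]
      linarith
    have h2 := H2 k _ (by omega) hzR
    have h3 := hone V E G S k u v (by omega) hKF' U' hUG' hUc' (fun A hA => (hG A (hUG' hA)).1)
    have h3R : ((E.card - (U'.biUnion id).card).choose (k - 1) : ℝ) ≤ M + ((v - 1 : ℕ) : ℝ) := by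
      exact_mod_cast h3
    have ha := Ha k (by omega)
    have hc := Hc k (by omega)
    have hvR : (1 : ℝ) ≤ v := by exact_mod_cast (by omega : 1 ≤ v)
    have hv1 : ((v - 1 : ℕ) : ℝ) = (v : ℝ) - 1 := by
      rw [Nat.cast_sub (by omega)]; simp
    have h19 : (1 : ℝ) ≤ 1.9 ^ k := one_le_pow₀ (by norm_num)
    have hM19 : (1.9 : ℝ) ^ k ≤ M := by
      rw [hv1] at h3R
      nlinarith
    rcases le_or_gt (G.card : ℝ) (1.9 ^ k) with hs | hb
    · exact_mod_cast le_trans hs hM19
    · have hh := H1 k E.card (by omega) (by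
        have e1 : 598 * k ≤ 200 * E.card := by rw [hEc]; omega
        have e1R : (598 : ℝ) * k ≤ 200 * E.card := by exact_mod_cast e1
        norm_num; linarith)
      refine HK V E G S k (E.card - k - k / 100) u (by omega) (by rw [hEc]; omega) ?_ ?_
        (by omega) huv hG hSsub hKF' ?_ ?_
      · have : E.card ≤ 2 * (E.card - k - k / 100) := by rw [hEc]; omega
        have : (E.card : ℝ) ≤ 2 * ((E.card - k - k / 100 : ℕ) : ℝ) := by exact_mod_cast this
        linarith
      · have e1 : ((E.card - k - k / 100 : ℕ) : ℝ) + k + ((k / 100 : ℕ) : ℝ) = E.card := by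
          have : E.card - k - k / 100 + k + k / 100 = E.card := by rw [hEc]; omega
          exact_mod_cast this
        have e2 : (k : ℝ) ≤ 200 * ((k / 100 : ℕ) : ℝ) := by
          have : k ≤ 200 * (k / 100) := by omega
          exact_mod_cast this
        have e3 : 1 / (200 * ((u : ℝ) + 3)) * E.card ≤ k / 200 := by
          rw [div_mul_eq_mul_div, one_mul, div_le_div_iff₀ (by positivity) (by norm_num)]
          nlinarith
        linarith
      · have e1 : ((2 * (u - 1) * E.card.choose k : ℕ) : ℝ) ≤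
            ((G.card * (E.card - k - k / 100).choose k : ℕ) : ℝ) := by
          have hu1 : (((u - 1 : ℕ)) : ℝ) ≤ u := by exact_mod_cast Nat.sub_le _ _
          push_cast
          have h186 : (0 : ℝ) < 1.86 ^ k := by positivity
          have hcr : (0 : ℝ) ≤ ((E.card - k - k / 100).choose k : ℝ) := Nat.cast_nonneg _
          calc 2 * ((u - 1 : ℕ) : ℝ) * (E.card.choose k : ℝ)
              ≤ 2 * (u : ℝ) * (3 * 1.86 ^ k * ((E.card - k - k / 100).choose k : ℝ)) := by
                apply mul_le_mul (by linarith) hh (Nat.cast_nonneg _) (by positivity)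
            _ = (6 * u * 1.86 ^ k) * ((E.card - k - k / 100).choose k : ℝ) := by ring
            _ ≤ (G.card : ℝ) * ((E.card - k - k / 100).choose k : ℝ) := by
                apply mul_le_mul_of_nonneg_right _ hcr
                linarith
        exact_mod_cast e1
      · rw [hEc]
        have hBB := HB k n (by omega) (by
          have : (599 : ℝ) * k ≤ 200 * n := by exact_mod_cast h599
          norm_num; linarith)
        exact smallG hεK (by omega : 1 ≤ v) hk1 hn2k hnu hBB hx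

theorem A3 (hbin : S_binbig) (hstruct : S_struct) (hK : S_lemK) (hsplit : S_split) : S_A3 := by
  intro v hv ε hε
  obtain ⟨L, εK, hεK, kK, HK⟩ := hK (ε / 8) (1 / 4) (by positivity) (by norm_num) v
  have hb : 1 / (2 + ε) < (1 : ℝ) / 2 := by
    apply one_div_lt_one_div_of_lt (by norm_num); linarith
  obtain ⟨kS, HS⟩ := hstruct (1 / (2 + ε)) hb (εK / 4) (by positivity) L v
  obtain ⟨kB, HB⟩ := hbin (1 / (2 + ε)) hb (8 * (v : ℝ) * ((4 : ℕ) : ℝ) ^ L / εK)
  obtain ⟨kε, hkε⟩ := exists_nat_gt (2 / ε)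
  refine ⟨kK + kS + kB + kε + 1, ?_⟩
  intro V _ _ k hk hn hn4 F hF hKF
  set n := Fintype.card V with hnV
  have hk1 : 1 ≤ k := by omega
  have hkR : (0 : ℝ) < k := by exact_mod_cast hk1
  have hn2k : 2 * k ≤ n := by
    have : (2 : ℝ) * k ≤ n := by nlinarith
    exact_mod_cast this
  rcases Nat.lt_or_ge F.card ((n - 1).choose (k - 1)) with hlt | hge
  · omega
  have hkb : (k : ℝ) ≤ 1 / (2 + ε) * n := by
    rw [div_mul_eq_mul_div, one_mul, le_div_iff₀ (by positivity)]; linarith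
  obtain ⟨x, hx⟩ := HS V k 1 (by omega) (by rw [← hnV]; exact hkb) le_rfl hv F hF hKF hge
  rw [← hnV] at hx
  obtain ⟨S, hSsub, hKF', hcard, hM⟩ := hsplit V x F k 1 v hk1 hF hKF
  rw [← hnV] at hM
  set G := F.filter (fun A => x ∉ A) with hGdef
  set E := (univ.erase x : Finset V) with hE
  have hEc : E.card = n - 1 := by
    rw [hE, Finset.card_erase_of_mem (Finset.mem_univ _), Finset.card_univ]
  have hG : ∀ A ∈ G, A ⊆ E ∧ A.card = k := by
    intro A hA
    rw [hGdef, Finset.mem_filter] at hA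
    refine ⟨fun y hy => ?_, hF A hA.1⟩
    rw [hE, Finset.mem_erase]
    exact ⟨fun h => hA.2 (h ▸ hy), Finset.mem_univ _⟩
  have hkε' : 2 / ε < k := lt_of_lt_of_le hkε (by exact_mod_cast (by omega : kε ≤ k))
  rw [div_lt_iff₀ hε] at hkε'
  have hEcR : (E.card : ℝ) = n - 1 := by
    rw [hEc, Nat.cast_sub (by omega)]; simp
  have hfin : G.card ≤ (powersetCard (k - 1) E \ S).card := by
    refine HK V E G S k k 1 (by omega) le_rfl ?_ ?_ le_rfl hv hG hSsub hKF' ?_ ?_
    · have : (n : ℝ) ≤ 4 * k := by exact_mod_cast hn4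
      rw [hEcR]; linarith
    · have h4 : (n : ℝ) ≤ 4 * k := by exact_mod_cast hn4
      rw [hEcR]; nlinarith
    · simp
    · rw [hEc]
      exact smallG hεK hv hk1 hn2k hn4 (HB k n (by omega) hkb) hx
  omega

end Pool.Agent.H30.UI
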