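import Pool.Agent.H30.UI.Final
import Pool.Agent.H30.UI.U1
import Pool.Agent.H30.UI.U12
import Pool.Agent.H30.UI.U16
import Pool.Agent.H30.UI.U18
import Pool.Agent.H30.UI.U31
import Pool.Agent.H30.UI.U32
import Pool.Agent.H82.UI.Ekr
import Pool.Agent.H82.UI.Lvl
import Pool.Agent.H82.UI.Dict
import Pool.Agent.H82.UI.Slice2
import Pool.Agent.H82.UI.Stab
import Pool.Agent.H82.UI.Kk2
import Pool.Agent.H82.UI.ExU
import Pool.Agent.H82.UI.Free
import Pool.Agent.H82.UI.Num
import Pool.Agent.H9.UI.Num2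
import Pool.Agent.H9.UI.Cnt
import Pool.Agent.H9.UI.Comb
import Pool.Agent.H9.UI.Con2
import Pool.Agent.H9.UI.Msr
import Pool.Agent.H67.UI.Con3
import Pool.Agent.H67.UI.Pack

/-! All lemmas of project UI. -/

namespace Pool.Agent.H30.UI

theorem s_plus : S_plus := plus choose4
theorem s_dict : S_dict := H82.UI.dict H82.UI.ekr H82.UI.lvl H9.UI.russo
theorem s_stab : S_stab := H82.UI.stab s_dict H82.UI.slice2 H9.UI.cheb
theorem s_binbig : S_binbig := binbig ratio
theorem s_struct : S_struct := struct s_plus s_stab s_binbig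
theorem s_shadow : S_shadow := H9.UI.shadow H82.UI.kk2
theorem s_lemK : S_lemK := lemK H9.UI.upc s_shadow ratio down
theorem s_A1 : S_A1 := A1 s_struct s_lemK H9.UI.one H9.UI.n3 H9.UI.n4 H9.UI.split
theorem s_A2 : S_A2 := A2 s_binbig s_struct s_lemK H9.UI.one H82.UI.exU H9.UI.power H82.UI.n1
  H82.UI.n2 H67.UI.pack H9.UI.split
theorem s_A3 : S_A3 := A3 s_binbig s_struct s_lemK H9.UI.split
theorem s_A4 : S_A4 := H9.UI.A4 s_plus H9.UI.one H9.UI.split H9.UI.triv

end Pool.Agent.H30.UI
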