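import Pool.Agent.H30.UI.Stubs

/-! Bridge between `UnionIntersecting` and `KF`. -/

namespace Pool.Agent.H30.UI

open Finset

theorem KF_of_UI {n u v : ℕ} {F : Finset (Finset (Fin n))} (h : UnionIntersecting u v F) :
    KF u v F F := by
  intro P hP Q hQ hPu hQv
  let eP := (Finset.equivFinOfCardEq hPu).symm
  let eQ := (Finset.equivFinOfCardEq hQv).symm
  obtain ⟨x, hx⟩ := h (fun i => (eP i).1) (fun j => (eQ j).1)
    (fun i j hij => eP.injective (Subtype.ext hij))
    (fun i j hij => eQ.injective (Subtype.ext hij))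
    (fun i => hP (eP i).2) (fun j => hQ (eQ j).2)
  rw [Finset.mem_inter, Finset.mem_biUnion, Finset.mem_biUnion] at hx
  obtain ⟨⟨i, _, hi⟩, ⟨j, _, hj⟩⟩ := hx
  exact ⟨(eP i).1, (eP i).2, (eQ j).1, (eQ j).2, fun hd =>
    (Finset.disjoint_left.1 hd) hi hj⟩

theorem UI_of_KF {n u v : ℕ} {F : Finset (Finset (Fin n))} (h : KF u v F F) :
    UnionIntersecting u v F := by
  intro f g hf hg hfF hgF
  obtain ⟨A, hA, B, hB, hd⟩ := h (univ.image f) (by
      intro A hA; obtain ⟨i, _, rfl⟩ := Finset.mem_image.1 hA; exact hfF i)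
    (univ.image g) (by
      intro A hA; obtain ⟨i, _, rfl⟩ := Finset.mem_image.1 hA; exact hgF i)
    (by rw [Finset.card_image_of_injective _ hf, Finset.card_univ, Fintype.card_fin])
    (by rw [Finset.card_image_of_injective _ hg, Finset.card_univ, Fintype.card_fin])
  rw [Finset.not_disjoint_iff] at hd
  obtain ⟨x, hxA, hxB⟩ := hd
  obtain ⟨i, _, rfl⟩ := Finset.mem_image.1 hA
  obtain ⟨j, _, rfl⟩ := Finset.mem_image.1 hB
  exact ⟨x, Finset.mem_inter.2 ⟨Finset.mem_biUnion.2 ⟨i, Finset.mem_univ _, hxA⟩,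
    Finset.mem_biUnion.2 ⟨j, Finset.mem_univ _, hxB⟩⟩⟩

/-- upper bound on `sizes` from an upper bound for `KF` families. -/
theorem sizes_le {n k u v M : ℕ} (h : ∀ F : Finset (Finset (Fin n)), (∀ A ∈ F, A.card = k) →
    KF u v F F → F.card ≤ M) : ∀ c ∈ sizes n k u v, c ≤ M := by
  rintro c ⟨F, hF, hU, rfl⟩
  exact h F (fun A hA => (Finset.mem_powersetCard.1 (hF hA)).2) (KF_of_UI hU)

/-- a member of `sizes` from a packing avoiding the point `0`. -/
theorem mem_sizes (hfree : S_free) {n k u v : ℕ} (hk : 1 ≤ k) (hu : 1 ≤ u) (huv : u ≤ v)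
    (x : Fin n) (G : Finset (Finset (Fin n))) (hG : G ⊆ powersetCard k (univ.erase x))
    (h : G.card < u ∨ (2 ≤ v ∧ (2 ≤ u ∨ G.card < v) ∧
      ∀ U ⊆ G, U.card = u → n ≤ (U.biUnion id).card + k)) :
    (n - 1).choose (k - 1) + G.card ∈ sizes n k u v := by
  have hG' : ∀ A ∈ G, x ∉ A ∧ A.card = k := by
    intro A hA
    have := Finset.mem_powersetCard.1 (hG hA)
    exact ⟨fun hx => (Finset.notMem_erase x univ) (this.1 hx), this.2⟩
  have key := hfree (Fin n) x G k u v hG' hk hu huv (by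
    rcases h with h | ⟨h1, h2, h3⟩
    · exact Or.inl h
    · refine Or.inr ⟨h1, h2, ?_⟩
      intro U hU hUu
      rw [Fintype.card_fin]; exact h3 U hU hUu)
  rw [Fintype.card_fin] at key
  refine ⟨_, ?_, UI_of_KF key.1, key.2⟩
  intro A hA
  rw [Finset.mem_union, Finset.mem_filter] at hA
  rw [Finset.mem_powersetCard]
  rcases hA with hA | hA
  · exact ⟨Finset.subset_univ _, (hG' A hA).2⟩
  · exact Finset.mem_powersetCard.1 hA.1

end Pool.Agent.H30.UI
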