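import Pool.Agent.H30.UI.Stubs

/-! small numeric helpers for the assembly. -/

namespace Pool.Agent.H30.UI

open Finset

theorem pow_ev (A c d : ℝ) (hc : 0 < c) (hd : c < d) : ∃ k0 : ℕ, ∀ k ≥ k0, A * c ^ k ≤ d ^ k := by
  have h1 : 1 < d / c := by rw [lt_div_iff₀ hc]; linarith
  obtain ⟨k0, hk0⟩ := pow_unbounded_of_one_lt A h1
  refine ⟨k0, fun k hk => ?_⟩
  have h2 : A ≤ (d / c) ^ k := le_trans hk0.le (pow_le_pow_right₀ h1.le hk)
  calc A * c ^ k ≤ (d / c) ^ k * c ^ k := mul_le_mul_of_nonneg_right h2 (by positivity)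
    _ = d ^ k := by rw [← mul_pow, div_mul_cancel₀ _ hc.ne']

/-- passing from `n` to `n-1`. -/
theorem pass (ε : ℝ) (hε : 0 ≤ ε) (n k L : ℕ) (hk : 1 ≤ k) (hn : 2 * k ≤ n) :
    ε / 2 * ((k : ℝ) / n) ^ L * (n.choose k : ℝ) ≤
      ε * ((k : ℝ) / ((n - 1 : ℕ) : ℝ)) ^ L * ((n - 1).choose k : ℝ) := by
  obtain ⟨m, rfl⟩ : ∃ m, n = m + 1 := ⟨n - 1, by omega⟩
  simp only [Nat.add_sub_cancel]
  have hc : (m + 1).choose k ≤ 2 * m.choose k := by
    have h1 := Nat.choose_mul_succ_eq m k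
    -- m.choose k * (m+1) = (m+1).choose k * (m+1-k)
    have h2 : (m + 1) ≤ 2 * (m + 1 - k) := by omega
    have h3 : (m + 1).choose k * (m + 1 - k) ≤ (2 * m.choose k) * (m + 1 - k) := by
      calc (m + 1).choose k * (m + 1 - k) = m.choose k * (m + 1) := h1.symm
        _ ≤ m.choose k * (2 * (m + 1 - k)) := Nat.mul_le_mul_left _ h2
        _ = (2 * m.choose k) * (m + 1 - k) := by ring
    exact Nat.le_of_mul_le_mul_right h3 (by omega)
  have hcR : ((m + 1).choose k : ℝ) ≤ 2 * (m.choose k : ℝ) := by exact_mod_cast hc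
  have hm : (0 : ℝ) < m := by
    have : 0 < m := by omega
    exact_mod_cast this
  have hp : ((k : ℝ) / ((m + 1 : ℕ) : ℝ)) ^ L ≤ ((k : ℝ) / m) ^ L := by
    apply pow_le_pow_left₀ (by positivity)
    apply div_le_div_of_nonneg_left (by positivity) hm
    push_cast; linarith
  calc ε / 2 * ((k : ℝ) / ((m + 1 : ℕ) : ℝ)) ^ L * ((m + 1).choose k : ℝ)
      ≤ ε / 2 * ((k : ℝ) / ((m + 1 : ℕ) : ℝ)) ^ L * (2 * (m.choose k : ℝ)) :=
        mul_le_mul_of_nonneg_left hcR (by positivity)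
    _ = ε * ((k : ℝ) / ((m + 1 : ℕ) : ℝ)) ^ L * (m.choose k : ℝ) := by ring
    _ ≤ ε * ((k : ℝ) / m) ^ L * (m.choose k : ℝ) := by
        apply mul_le_mul_of_nonneg_right _ (by positivity)
        exact mul_le_mul_of_nonneg_left hp hε

end Pool.Agent.H30.UI
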