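import Pool.Agent.H30.UI.U1
import Pool.Agent.H30.UI.Bridge
import Pool.Agent.H30.UI.Num
import Pool.Agent.H9.UI.Num2

/-! asymptotics for all `n`. -/

namespace Pool.Agent.H30.UI

open Finset

section
variable {V : Type} [Fintype V] [DecidableEq V]

/-- counting pairs `(A, X)`, `A ∈ F`, `A ⊆ X`, `|X| = k+1`. -/
theorem count_up (k v : ℕ) (hv : 1 ≤ v) (F : Finset (Finset V)) (hF : ∀ A ∈ F, A.card = k) :
    F.card * (Fintype.card V - k) ≤
      (k + 1) * ((powersetCard (k + 1) (univ : Finset V)).filter
        (fun X => v ≤ (F.filter (fun A => A ⊆ X)).card)).card +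
      (v - 1) * (Fintype.card V).choose (k + 1) := by
  set N := powersetCard (k + 1) (univ : Finset V) with hN
  have h1 : ∀ A ∈ F, (N.filter (fun X => A ⊆ X)).card = Fintype.card V - k := by
    intro A hA
    have := card_between A (∅ : Finset V) (Finset.disjoint_empty_right _) (k + 1)
      (by rw [hF A hA]; omega)
    rw [hF A hA, Finset.card_empty, Nat.sub_zero, Nat.add_sub_cancel_left, Nat.choose_one_right]
      at this
    rw [← this, hN]
    congr 1
    ext X
    simp
  have h2 : F.card * (Fintype.card V - k) = ∑ X ∈ N, (F.filter (fun A => A ⊆ X)).card := by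
    calc F.card * (Fintype.card V - k) = ∑ A ∈ F, (N.filter (fun X => A ⊆ X)).card := by
          rw [Finset.sum_congr rfl h1, Finset.sum_const, smul_eq_mul]
      _ = ∑ X ∈ N, (F.filter (fun A => A ⊆ X)).card := by
          simp only [Finset.card_filter]
          exact Finset.sum_comm
  rw [h2, ← Finset.sum_filter_add_sum_filter_not N
    (fun X => v ≤ (F.filter (fun A => A ⊆ X)).card)]
  apply add_le_add
  · calc ∑ X ∈ N.filter (fun X => v ≤ (F.filter (fun A => A ⊆ X)).card),
          (F.filter (fun A => A ⊆ X)).card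
        ≤ ∑ X ∈ N.filter (fun X => v ≤ (F.filter (fun A => A ⊆ X)).card), (k + 1) := by
          apply Finset.sum_le_sum
          intro X hX
          have hX' := (Finset.mem_powersetCard.1 (Finset.mem_filter.1 hX).1).2
          have : F.filter (fun A => A ⊆ X) ⊆ powersetCard k X := by
            intro A hA
            rw [Finset.mem_filter] at hA
            rw [Finset.mem_powersetCard]
            exact ⟨hA.2, hF A hA.1⟩
          have h3 := Finset.card_le_card this
          rw [Finset.card_powersetCard, hX', Nat.choose_succ_self_right] at h3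
          exact h3
      _ = _ := by rw [Finset.sum_const, smul_eq_mul, mul_comm]
  · calc ∑ X ∈ N.filter (fun X => ¬ v ≤ (F.filter (fun A => A ⊆ X)).card),
          (F.filter (fun A => A ⊆ X)).card
        ≤ ∑ X ∈ N.filter (fun X => ¬ v ≤ (F.filter (fun A => A ⊆ X)).card), (v - 1) := by
          apply Finset.sum_le_sum
          intro X hX
          have := (Finset.mem_filter.1 hX).2
          omega
      _ ≤ ∑ X ∈ N, (v - 1) := Finset.sum_le_sum_of_subset (Finset.filter_subset _ _)
      _ = _ := by
          rw [Finset.sum_const, smul_eq_mul, hN, Finset.card_powersetCard, Finset.card_univ,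
            mul_comm]

end

/-- `k(k+1)|F| ≤ ((k+1)² + (v-1) n) C(n-1,k-1)` for `n ≥ 2k+2`. -/
theorem asym_main {n k u v : ℕ} (hk : 1 ≤ k) (hn : 2 * k + 2 ≤ n) (hu : 1 ≤ u) (huv : u ≤ v)
    (F : Finset (Finset (Fin n))) (hF : ∀ A ∈ F, A.card = k) (hKF : KF u v F F) :
    k * (k + 1) * F.card ≤ ((k + 1) ^ 2 + (v - 1) * n) * (n - 1).choose (k - 1) := by
  have h1 := count_up k v (by omega) F hF
  rw [Fintype.card_fin] at h1
  set F' := (powersetCard (k + 1) (univ : Finset (Fin n))).filter
    (fun X => v ≤ (F.filter (fun A => A ⊆ X)).card) with hF'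
  have hEKR : F'.card ≤ (n - 1).choose k := by
    have := Finset.erdos_ko_rado (𝒜 := F') (r := k + 1) ?_ ?_ (by omega)
    · simpa using this
    · intro X hX Y hY hd
      have hX' := (Finset.mem_filter.1 hX).2
      have hY' := (Finset.mem_filter.1 hY).2
      obtain ⟨P, hP, hPc⟩ := Finset.exists_subset_card_eq (le_trans huv hX')
      obtain ⟨Q, hQ, hQc⟩ := Finset.exists_subset_card_eq hY'
      obtain ⟨A, hA, B, hB, hnd⟩ := hKF P (hP.trans (Finset.filter_subset _ _)) Q
        (hQ.trans (Finset.filter_subset _ _)) hPc hQc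
      exact hnd (Finset.disjoint_of_subset_left (Finset.mem_filter.1 (hP hA)).2
        (Finset.disjoint_of_subset_right (Finset.mem_filter.1 (hQ hB)).2 hd))
    · intro X hX
      exact (Finset.mem_powersetCard.1 (Finset.mem_filter.1 hX).1).2
  -- binomial identities
  obtain ⟨i, rfl⟩ : ∃ i, k = i + 1 := ⟨k - 1, by omega⟩
  obtain ⟨m, rfl⟩ : ∃ m, n = m + 1 := ⟨n - 1, by omega⟩
  simp only [Nat.add_sub_cancel] at *
  have e1 : m.choose (i + 1) * (i + 1) = m.choose i * (m - i) := Nat.choose_succ_right_eq m i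
  have e2 : (m + 1) * m.choose (i + 1) = (m + 1).choose (i + 1 + 1) * (i + 1 + 1) :=
    Nat.add_one_mul_choose_eq m (i + 1)
  have hpos : 0 < m - i := by omega
  have e3 : m + 1 - (i + 1) = m - i := by omega
  rw [e3] at h1
  have key : ((i + 1) * (i + 1 + 1) * F.card) * (m - i) ≤
      (((i + 1 + 1) ^ 2 + (v - 1) * (m + 1)) * m.choose i) * (m - i) := by
    calc ((i + 1) * (i + 1 + 1) * F.card) * (m - i)
        = (i + 1) * (i + 1 + 1) * (F.card * (m - i)) := by ring
      _ ≤ (i + 1) * (i + 1 + 1) * ((i + 1 + 1) * F'.card + (v - 1) * (m + 1).choose (i + 1 + 1)) :=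
          Nat.mul_le_mul_left _ h1
      _ ≤ (i + 1) * (i + 1 + 1) * ((i + 1 + 1) * m.choose (i + 1) +
            (v - 1) * (m + 1).choose (i + 1 + 1)) := by
          apply Nat.mul_le_mul_left
          apply Nat.add_le_add_right
          exact Nat.mul_le_mul_left _ hEKR
      _ = (i + 1 + 1) ^ 2 * (m.choose (i + 1) * (i + 1)) +
            (v - 1) * (i + 1) * ((m + 1).choose (i + 1 + 1) * (i + 1 + 1)) := by ring
      _ = (i + 1 + 1) ^ 2 * (m.choose (i + 1) * (i + 1)) +
            (v - 1) * (m + 1) * (m.choose (i + 1) * (i + 1)) := by rw [← e2]; ring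
      _ = (((i + 1 + 1) ^ 2 + (v - 1) * (m + 1)) * m.choose i) * (m - i) := by rw [e1]; ring
  exact Nat.le_of_mul_le_mul_right key hpos

/-- `u = 1`, `n = 2k+1`: `2(k+1)|F| ≤ (k+v) C(2k+1,k)`. -/
theorem asym_odd {k v : ℕ} (hv : 1 ≤ v)
    (F : Finset (Finset (Fin (2 * k + 1)))) (hF : ∀ A ∈ F, A.card = k) (hKF : KF 1 v F F) :
    2 * (k + 1) * F.card ≤ (k + v) * (2 * k + 1).choose k := by
  have h1 := count_up k v hv F hF
  rw [Fintype.card_fin] at h1
  set F' := (powersetCard (k + 1) (univ : Finset (Fin (2 * k + 1)))).filter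
    (fun X => v ≤ (F.filter (fun A => A ⊆ X)).card) with hF'
  have h2 : F'.card + F.card ≤ (2 * k + 1).choose k := by
    have hinj : (F'.image (fun X => Xᶜ)).card = F'.card :=
      Finset.card_image_of_injective _ compl_injective
    have hdisj : Disjoint (F'.image (fun X => Xᶜ)) F := by
      rw [Finset.disjoint_left]
      intro A hA hAF
      obtain ⟨X, hX, rfl⟩ := Finset.mem_image.1 hA
      have hX' := (Finset.mem_filter.1 hX).2
      obtain ⟨Q, hQ, hQc⟩ := Finset.exists_subset_card_eq hX'
      obtain ⟨A, hA, B, hB, hnd⟩ := hKF {Xᶜ} (Finset.singleton_subset_iff.2 hAF) Q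
        (hQ.trans (Finset.filter_subset _ _)) (Finset.card_singleton _) hQc
      rw [Finset.mem_singleton] at hA
      subst hA
      exact hnd (Finset.disjoint_of_subset_right (Finset.mem_filter.1 (hQ hB)).2
        disjoint_compl_left)
    have hsub : F'.image (fun X => Xᶜ) ∪ F ⊆ powersetCard k (univ : Finset (Fin (2 * k + 1))) := by
      intro A hA
      rw [Finset.mem_powersetCard]
      refine ⟨Finset.subset_univ _, ?_⟩
      rcases Finset.mem_union.1 hA with hA | hA
      · obtain ⟨X, hX, rfl⟩ := Finset.mem_image.1 hA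
        have := (Finset.mem_powersetCard.1 (Finset.mem_filter.1 hX).1).2
        rw [Finset.card_compl, this, Fintype.card_fin]; omega
      · exact hF A hA
    have := Finset.card_le_card hsub
    rw [Finset.card_union_of_disjoint hdisj, hinj, Finset.card_powersetCard, Finset.card_univ,
      Fintype.card_fin] at this
    exact this
  have e1 : (2 * k + 1).choose (k + 1) = (2 * k + 1).choose k := by
    have := Nat.choose_symm (n := 2 * k + 1) (k := k) (by omega)
    rw [← this]; congr 1; omega
  have e2 : 2 * k + 1 - k = k + 1 := by omega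
  rw [e1, e2] at h1
  have h3 : (k + 1) * F'.card + (k + 1) * F.card ≤ (k + 1) * (2 * k + 1).choose k := by
    rw [← Nat.mul_add]; exact Nat.mul_le_mul_left _ h2
  obtain ⟨w, rfl⟩ : ∃ w, v = w + 1 := ⟨v - 1, by omega⟩
  simp only [Nat.add_sub_cancel] at h1
  nlinarith

end Pool.Agent.H30.UI
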