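import Pool.Agent.H30.UI.Asym
import Pool.Agent.H82.UI.Free

/-! asymptotics for all `n`, assembly. -/

namespace Pool.Agent.H30.UI

open Finset

theorem univ_le {n k u v : ℕ} (hk : 1 ≤ k) (hn : 2 * k ≤ n) (hu : 1 ≤ u) (huv : u ≤ v)
    (F : Finset (Finset (Fin n))) (hF : ∀ A ∈ F, A.card = k) (hKF : KF u v F F) :
    F.card ≤ (n - 1).choose (k - 1) + (v - 1) * 4 ^ (k + 1) := by
  obtain ⟨F', h1, h2, h3⟩ := plus choose4 (Fin n) k u v hk (by rw [Fintype.card_fin]; exact hn) hu
    huv F hF hKF
  have hEKR : F'.card ≤ (n - 1).choose (k - 1) := by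
    refine Finset.erdos_ko_rado ?_ ?_ (by omega)
    · intro A hA B hB hd
      exact h2 A hA B hB hd
    · intro A hA
      exact hF A (h1 hA)
  have := Finset.card_sdiff_add_card_eq_card h1
  omega

/-- two `k`-sets inside a set with at most `k` elements coincide. -/
theorem all_KF {n k u v : ℕ} (hu : 1 ≤ u) (huv : u ≤ v) (hv : 2 ≤ v)
    (h : n ≤ 2 * k ∨ (2 ≤ u ∧ n ≤ 2 * k + 1)) :
    KF u v (powersetCard k (univ : Finset (Fin n))) (powersetCard k (univ : Finset (Fin n))) := by
  intro P hP Q hQ hPu hQv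
  by_contra hcon
  push Not at hcon
  -- a set `D` with at least `n - k` elements disjoint from all members of `Q`
  have hD : ∃ D : Finset (Fin n), n ≤ D.card + k ∧ ∀ B ∈ Q, Disjoint D B := by
    rcases h with h | ⟨hu2, h⟩
    · obtain ⟨A, hA⟩ : P.Nonempty := Finset.card_pos.1 (by omega)
      refine ⟨A, ?_, fun B hB => hcon A hA B hB⟩
      rw [(Finset.mem_powersetCard.1 (hP hA)).2]; omega
    · obtain ⟨A, hA, A', hA', hne⟩ := Finset.one_lt_card.1 (by omega : 1 < P.card)
      have hAc := (Finset.mem_powersetCard.1 (hP hA)).2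
      have hAc' := (Finset.mem_powersetCard.1 (hP hA')).2
      refine ⟨A ∪ A', ?_, fun B hB => ?_⟩
      · have hlt : A.card < (A ∪ A').card := by
          apply Finset.card_lt_card
          rw [Finset.ssubset_iff_subset_ne]
          refine ⟨Finset.subset_union_left, fun heq => hne ?_⟩
          have hsub : A' ⊆ A := by rw [heq]; exact Finset.subset_union_right
          exact (Finset.eq_of_subset_of_card_le hsub (by omega)).symm
        omega
      · rw [Finset.disjoint_union_left]
        exact ⟨hcon A hA B hB, hcon A' hA' B hB⟩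
  obtain ⟨D, hDc, hDd⟩ := hD
  obtain ⟨B, hB, B', hB', hne⟩ := Finset.one_lt_card.1 (by omega : 1 < Q.card)
  apply hne
  have hcompl : Dᶜ.card ≤ k := by rw [Finset.card_compl, Fintype.card_fin]; omega
  have e : ∀ B ∈ Q, B = Dᶜ := by
    intro B hB
    apply Finset.eq_of_subset_of_card_le
    · intro y hy
      rw [Finset.mem_compl]
      intro hyD
      exact (Finset.disjoint_left.1 (hDd B hB)) hyD hy
    · rw [(Finset.mem_powersetCard.1 (hQ hB)).2]; exact hcompl
  rw [e B hB, e B' hB']

theorem small_n {n k u v : ℕ} (hu : 1 ≤ u) (huv : u ≤ v) (hv : 2 ≤ v)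
    (h : n ≤ 2 * k ∨ (2 ≤ u ∧ n ≤ 2 * k + 1)) : IsGreatest (sizes n k u v) (n.choose k) := by
  constructor
  · refine ⟨powersetCard k univ, le_rfl, UI_of_KF (all_KF hu huv hv h), ?_⟩
    rw [Finset.card_powersetCard, Finset.card_univ, Fintype.card_fin]
  · rintro c ⟨F, hF, _, rfl⟩
    have := Finset.card_le_card hF
    rwa [Finset.card_powersetCard, Finset.card_univ, Fintype.card_fin] at this

theorem asym (u v : ℕ) (hu : 1 ≤ u) (huv : u ≤ v) :
    ∃ C : ℝ, ∀ k n : ℕ, 1 ≤ k → (2 * k + 2 ≤ n ∨ (u = 1 ∧ n = 2 * k + 1)) →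
      ∀ m : ℕ, IsGreatest (sizes n k u v) m →
        ((n - 1).choose (k - 1) : ℝ) ≤ m ∧
        (m : ℝ) ≤ (1 + C / k) * ((n - 1).choose (k - 1) : ℝ) := by
  obtain ⟨k0, h0⟩ := H9.UI.n3
  set C' : ℝ := (v : ℝ) * (32 / 3 + 4 ^ (k0 + 1) * k0) with hC'
  have hC'0 : 0 ≤ C' := by positivity
  refine ⟨5 * v + C', fun k n hk hn m hm => ?_⟩
  have hkR : (1 : ℝ) ≤ k := by exact_mod_cast hk
  have hk0 : (0 : ℝ) < k := by linarith
  have hvR : (1 : ℝ) ≤ v := by exact_mod_cast (by omega : 1 ≤ v)
  have hn0 : 0 < n := by omega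
  have hn2 : 2 * k + 1 ≤ n := by omega
  set D : ℝ := ((n - 1).choose (k - 1) : ℝ) with hD
  have hD1 : 1 ≤ D := by
    rw [hD]; exact_mod_cast Nat.choose_pos (by omega : k - 1 ≤ n - 1)
  constructor
  · have h1 : (n - 1).choose (k - 1) + (∅ : Finset (Finset (Fin n))).card ∈ sizes n k u v :=
      mem_sizes H82.UI.free hk hu huv (⟨0, hn0⟩ : Fin n) ∅ (Finset.empty_subset _)
        (Or.inl (by rw [Finset.card_empty]; omega))
    rw [Finset.card_empty, Nat.add_zero] at h1
    have := hm.2 h1
    rw [hD]; exact_mod_cast this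
  · obtain ⟨F, hF, hU, rfl⟩ := hm.1
    have hFk : ∀ A ∈ F, A.card = k := fun A hA => (Finset.mem_powersetCard.1 (hF hA)).2
    have hKF := KF_of_UI hU
    have hgoal : ∀ t : ℝ, t ≤ 5 * v + C' → (F.card : ℝ) * k ≤ (k + t) * D →
        (F.card : ℝ) ≤ (1 + (5 * v + C') / k) * D := by
      intro t ht h
      have e : (1 + (5 * v + C') / k) * D = ((k + (5 * v + C')) * D) / k := by field_simp
      rw [e, le_div_iff₀ hk0]
      nlinarith
    rcases Nat.lt_or_ge n (3 * k) with h3 | h3
    · rcases hn with hn | ⟨hu1, hn⟩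
      · have h1 := asym_main hk hn hu huv F hFk hKF
        have h1R : (k : ℝ) * (k + 1) * F.card ≤ ((k + 1) ^ 2 + ((v - 1 : ℕ) : ℝ) * n) * D := by
          rw [hD]; exact_mod_cast h1
        have hv1 : ((v - 1 : ℕ) : ℝ) = (v : ℝ) - 1 := by
          rw [Nat.cast_sub (by omega)]; simp
        have hn3 : (n : ℝ) ≤ 3 * k := by exact_mod_cast h3.le
        rw [hv1] at h1R
        apply hgoal (1 + 3 * (v - 1)) (by linarith)
        have h2 : ((k : ℝ) + 1) * (F.card * k) ≤ (k + 1) * ((k + (1 + 3 * (v - 1))) * D) := by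
          calc ((k : ℝ) + 1) * (F.card * k) = (k : ℝ) * (k + 1) * F.card := by ring
            _ ≤ ((k + 1) ^ 2 + ((v : ℝ) - 1) * n) * D := h1R
            _ ≤ ((k + 1) ^ 2 + ((v : ℝ) - 1) * (3 * k)) * D := by
                apply mul_le_mul_of_nonneg_right _ (by linarith)
                have : ((v : ℝ) - 1) * n ≤ ((v : ℝ) - 1) * (3 * k) :=
                  mul_le_mul_of_nonneg_left hn3 (by linarith)
                linarith
            _ ≤ (k + 1) * ((k + (1 + 3 * (v - 1))) * D) := by
                have : 0 ≤ ((v : ℝ) - 1) * D := mul_nonneg (by linarith) (by linarith)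
                nlinarith
        exact le_of_mul_le_mul_left h2 (by linarith)
      · subst hn
        subst hu1
        have h1 := asym_odd (by omega : 1 ≤ v) F hFk hKF
        have h1R : 2 * ((k : ℝ) + 1) * F.card ≤ (k + v) * ((2 * k + 1).choose k : ℝ) := by
          exact_mod_cast h1
        have e1 : ((2 * k + 1).choose k : ℝ) * k = (2 * k + 1) * D := by
          obtain ⟨i, rfl⟩ : ∃ i, k = i + 1 := ⟨k - 1, by omega⟩
          have := Nat.add_one_mul_choose_eq (2 * (i + 1)) i
          rw [hD]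
          have e2 : 2 * (i + 1) + 1 - 1 = 2 * (i + 1) := by omega
          have e3 : i + 1 - 1 = i := by omega
          rw [e2, e3]
          have h := this.symm
          exact_mod_cast h
        apply hgoal (2 * v) (by linarith)
        have h2 : (2 * ((k : ℝ) + 1) * k) * (F.card * k) ≤
            (2 * ((k : ℝ) + 1) * k) * ((k + 2 * v) * D) := by
          calc (2 * ((k : ℝ) + 1) * k) * (F.card * k)
              = (2 * ((k : ℝ) + 1) * F.card) * (k * k) := by ring
            _ ≤ ((k + v) * ((2 * k + 1).choose k : ℝ)) * (k * k) :=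
                mul_le_mul_of_nonneg_right h1R (by positivity)
            _ = ((k + v) * (((2 * k + 1).choose k : ℝ) * k)) * k := by ring
            _ = ((k + v) * ((2 * k + 1) * D)) * k := by rw [e1]
            _ = ((k + v) * (2 * k + 1)) * (k * D) := by ring
            _ ≤ (2 * (k + 1) * (k + 2 * v)) * (k * D) := by
                apply mul_le_mul_of_nonneg_right _ (by positivity)
                nlinarith
            _ = (2 * ((k : ℝ) + 1) * k) * ((k + 2 * v) * D) := by ring
        exact le_of_mul_le_mul_left h2 (by positivity)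
    · have h1 := univ_le hk (by omega) hu huv F hFk hKF
      have hv1 : ((v - 1 : ℕ) : ℝ) ≤ v := by exact_mod_cast Nat.sub_le _ _
      have h1R : (F.card : ℝ) ≤ D + ((v - 1 : ℕ) : ℝ) * 4 ^ (k + 1) := by
        rw [hD]; exact_mod_cast h1
      have h2 : (k : ℝ) * 4 ^ (k + 1) ≤ (32 / 3 + 4 ^ (k0 + 1) * k0) * D := by
        rcases le_or_gt k0 k with h | h
        · have h4 := h0 k (n - 1) h (by omega)
          rw [← hD] at h4
          have hb : (1 : ℝ) + k * 0.375 ≤ 1.375 ^ k := by
            have := one_add_mul_le_pow (by norm_num : (-2 : ℝ) ≤ 0.375) k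
            norm_num at this ⊢
            linarith
          have h5 : (k : ℝ) * 4 ^ (k + 1) ≤ 32 / 3 * 5.5 ^ k := by
            have e : (5.5 : ℝ) ^ k = 1.375 ^ k * 4 ^ k := by rw [← mul_pow]; norm_num
            rw [e, pow_succ]
            have h40 : (0 : ℝ) < 4 ^ k := by positivity
            nlinarith
          have h6 : (0 : ℝ) ≤ 4 ^ (k0 + 1) * k0 * D := by positivity
          nlinarith
        · have h4 : (k : ℝ) * 4 ^ (k + 1) ≤ 4 ^ (k0 + 1) * k0 := by
            have e1 : (k : ℝ) ≤ k0 := by exact_mod_cast h.le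
            have e2 : (4 : ℝ) ^ (k + 1) ≤ 4 ^ (k0 + 1) :=
              pow_le_pow_right₀ (by norm_num) (by omega)
            rw [mul_comm ((4 : ℝ) ^ (k0 + 1))]
            exact mul_le_mul e1 e2 (by positivity) (by positivity)
          have h5 : (0 : ℝ) ≤ 4 ^ (k0 + 1) * k0 := by positivity
          nlinarith
      apply hgoal C' (by linarith)
      have h3' : (F.card : ℝ) * k ≤ (D + v * 4 ^ (k + 1)) * k := by
        apply mul_le_mul_of_nonneg_right _ hk0.le
        have : ((v - 1 : ℕ) : ℝ) * 4 ^ (k + 1) ≤ v * 4 ^ (k + 1) :=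
          mul_le_mul_of_nonneg_right hv1 (by positivity)
        linarith
      calc (F.card : ℝ) * k ≤ (D + v * 4 ^ (k + 1)) * k := h3'
        _ = k * D + v * (k * 4 ^ (k + 1)) := by ring
        _ ≤ k * D + v * ((32 / 3 + 4 ^ (k0 + 1) * k0) * D) := by
            have := mul_le_mul_of_nonneg_left h2 (by linarith : (0 : ℝ) ≤ v)
            linarith
        _ = (k + C') * D := by rw [hC']; ring

end Pool.Agent.H30.UI
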