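import Pool.Agent.H30.Diam.Basics

/-! MP_fffc5a_co ((u,v)-union-intersecting families), project UI.  Definitions. -/

namespace Pool.Agent.H30.UI

open Finset

/-- `(F_1 ∪ ⋯ ∪ F_u) ∩ (G_1 ∪ ⋯ ∪ G_v) ≠ ∅` for all distinct `F_i ∈ 𝓕` and all distinct
`G_j ∈ 𝓕`. -/
def UnionIntersecting {n : ℕ} (u v : ℕ) (𝓕 : Finset (Finset (Fin n))) : Prop :=
  ∀ (f : Fin u → Finset (Fin n)) (g : Fin v → Finset (Fin n)),
    Function.Injective f → Function.Injective g → (∀ i, f i ∈ 𝓕) → (∀ j, g j ∈ 𝓕) →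
    ((Finset.univ.biUnion f) ∩ (Finset.univ.biUnion g)).Nonempty

/-- the sizes of the `(u,v)`-union-intersecting families of `k`-subsets of `[n]`; the number
`m(n,k,u,v)` is its greatest element. -/
def sizes (n k u v : ℕ) : Set ℕ :=
  {c | ∃ 𝓕 : Finset (Finset (Fin n)), 𝓕 ⊆ Finset.powersetCard k Finset.univ ∧
    UnionIntersecting u v 𝓕 ∧ 𝓕.card = c}

/-- cross version: no `u` members of `G` and `v` members of `S` are all cross-disjoint. -/
def KF {V : Type} [DecidableEq V] (u v : ℕ) (G S : Finset (Finset V)) : Prop :=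
  ∀ P ⊆ G, ∀ Q ⊆ S, P.card = u → Q.card = v → ∃ A ∈ P, ∃ B ∈ Q, ¬ Disjoint A B

/-- the predicate `P` on sets is closed upwards. -/
def Up {V : Type} (P : Finset V → Prop) : Prop := ∀ A B, A ⊆ B → P A → P B

/-- any two sets with `P` meet. -/
def Int {V : Type} (P : Finset V → Prop) : Prop := ∀ A B, P A → P B → ¬ Disjoint A B

end Pool.Agent.H30.UI
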