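import Pool.Agent.H30.UI.Bridge

/-! Final assembly from the stubs. -/

namespace Pool.Agent.H30.UI

open Finset

theorem choose_ge_self : ∀ {z j : ℕ}, 1 ≤ j → j + 1 ≤ z → z ≤ z.choose j := by
  intro z
  induction z with
  | zero => intro j hj hz; omega
  | succ z ih =>
      intro j hj hz
      obtain ⟨i, rfl⟩ : ∃ i, j = i + 1 := ⟨j - 1, by omega⟩
      rw [Nat.choose_succ_succ]
      rcases Nat.lt_or_ge (i + 1) z with h | h
      · have h1 := ih (j := i + 1) (by omega) (by omega)
        have h2 : 0 < z.choose i := Nat.choose_pos (by omega)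
        simp only [Nat.succ_eq_add_one] at *
        omega
      · have hz' : z = i + 1 := by omega
        subst hz'
        simp

theorem lower_u {n k u v : ℕ} (hfree : S_free) (hcon2 : S_con2) (hu : 1 ≤ u) (huv : u ≤ v)
    (hv : 2 ≤ v) (hk : 1 ≤ k) (hn : 2 * k ≤ n) (hn2 : n ≤ (u + 1) * k)
    (hc : u ≤ (n - 1).choose k) : (n - 1).choose (k - 1) + u ∈ sizes n k u v := by
  have hn0 : 0 < n := by omega
  let x : Fin n := ⟨0, hn0⟩
  have hE : (univ.erase x : Finset (Fin n)).card = n - 1 := by
    rw [Finset.card_erase_of_mem (Finset.mem_univ _), Finset.card_univ, Fintype.card_fin]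
  obtain ⟨G, hG, hGu, hcov⟩ := hcon2 (Fin n) (univ.erase x) k u hk (by rw [hE]; omega)
    (by rw [hE]; omega) (by rw [hE]; exact hc)
  have := mem_sizes hfree hk hu huv x G hG (Or.inr ⟨hv, (by
      rcases Nat.lt_or_ge u 2 with h | h
      · right; omega
      · left; exact h), fun U hU hUu => by
        have : U = G := Finset.eq_of_subset_of_card_le hU (by omega)
        rw [this]; rw [hE] at hcov; omega⟩)
  rwa [hGu] at this

theorem main_sharp (hA1 : S_A1) (hA2 : S_A2) (hfree : S_free) (hcon2 : S_con2)
    (hcon3 : S_con3) :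
    ∀ u v : ℕ, 2 ≤ u → u ≤ v → ∃ k0 : ℕ, ∀ k n : ℕ, k0 ≤ k →
      200 * ((u + 1) * k - n) ≤ k → (u + 2) ^ 2 * ((u + 1) * k - n) ≤ k →
      IsGreatest (sizes n k u v) ((n - 1).choose (k - 1) + gm n k u) := by
  intro u v hu huv
  obtain ⟨k1, h1⟩ := hA1 u v (by omega) huv
  obtain ⟨k2, h2⟩ := hA2 u v hu huv
  refine ⟨max (max k1 k2) (u + 10), fun k n hk hj1 hj2 => ?_⟩
  have hk1 : k1 ≤ k := le_trans (le_trans (le_max_left _ _) (le_max_left _ _)) hk
  have hk2 : k2 ≤ k := le_trans (le_trans (le_max_right _ _) (le_max_left _ _)) hk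
  have hku : u + 10 ≤ k := le_trans (le_max_right _ _) hk
  have hn2 : 2 * k + 2 ≤ n := by
    have e : (u + 1) * k = u * k + k := by ring
    have e2 : 2 * k ≤ u * k := Nat.mul_le_mul_right k hu
    omega
  have hn0 : 0 < n := by omega
  constructor
  · by_cases hc1 : (u + 1) * k < n
    · have e : gm n k u = u - 1 := by unfold gm; rw [if_pos hc1]
      rw [e]
      let x : Fin n := ⟨0, hn0⟩
      have hE : (univ.erase x : Finset (Fin n)).card = n - 1 := by
        rw [Finset.card_erase_of_mem (Finset.mem_univ _), Finset.card_univ, Fintype.card_fin]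
      have hcc : u - 1 ≤ (powersetCard k (univ.erase x : Finset (Fin n))).card := by
        rw [Finset.card_powersetCard, hE]
        have := choose_ge_self (z := n - 1) (j := k) (by omega) (by omega)
        omega
      obtain ⟨G, hG, hGc⟩ := Finset.exists_subset_card_eq hcc
      have := mem_sizes hfree (by omega : 1 ≤ k) (by omega) huv x G hG (Or.inl (by omega))
      rwa [hGc] at this
    · by_cases hc2 : 2 * ((u + 1) * k - n) + 1 < u
      · have e : gm n k u = u := by unfold gm; rw [if_neg hc1, if_pos hc2]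
        rw [e]
        refine lower_u hfree hcon2 (by omega) huv (by omega) (by omega) (by omega) (by omega) ?_
        have := choose_ge_self (z := n - 1) (j := k) (by omega) (by omega)
        omega
      · have e : gm n k u = u + 1 := by unfold gm; rw [if_neg hc1, if_neg hc2]
        rw [e]
        let x : Fin n := ⟨0, hn0⟩
        have hE : (univ.erase x : Finset (Fin n)).card = n - 1 := by
          rw [Finset.card_erase_of_mem (Finset.mem_univ _), Finset.card_univ, Fintype.card_fin]
        obtain ⟨G, hG, hGc, hcov⟩ := hcon3 (Fin n) (univ.erase x) k u ((u + 1) * k - n) hu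
          (by rw [hE]; omega) (by omega) (by
            have : 16 * ((u + 1) * k - n) ≤ (u + 2) ^ 2 * ((u + 1) * k - n) :=
              Nat.mul_le_mul_right _ (by nlinarith)
            omega)
        have := mem_sizes hfree (by omega : 1 ≤ k) (by omega) huv x G hG
          (Or.inr ⟨by omega, Or.inl hu, fun U hU hUu => by
            have := hcov U hU hUu
            rw [hE] at this; omega⟩)
        rwa [hGc] at this
  · intro c hc
    refine sizes_le (M := (n - 1).choose (k - 1) + gm n k u) ?_ c hc
    intro F hF hKF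
    rcases le_total n ((u + 3) * k) with h | h
    · have := h2 (Fin n) k hk2 (by rw [Fintype.card_fin]; exact hj1)
        (by rw [Fintype.card_fin]; exact hj2) (by rw [Fintype.card_fin]; exact h) F hF hKF
      rwa [Fintype.card_fin] at this
    · have := h1 (Fin n) k hk1 (by rw [Fintype.card_fin]; exact h) F hF hKF
      rw [Fintype.card_fin] at this
      have e : gm n k u = u - 1 := by
        unfold gm; rw [if_pos]
        have e1 : (u + 3) * k = (u + 1) * k + 2 * k := by ring
        omega
      rw [e]; exact this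

/-- all `k ≥ 2` and `n ≥ C k`. -/
theorem main_linear (hA1 : S_A1) (hA4 : S_A4) (hfree : S_free) :
    ∀ u v : ℕ, 1 ≤ u → u ≤ v → ∃ C : ℕ, ∀ k n : ℕ, 2 ≤ k → C * k ≤ n →
      IsGreatest (sizes n k u v) ((n - 1).choose (k - 1) + (u - 1)) := by
  intro u v hu huv
  obtain ⟨k1, h1⟩ := hA1 u v hu huv
  obtain ⟨N, h4⟩ := hA4 u v k1 hu huv
  refine ⟨u + 3 + N, fun k n hk hn => ?_⟩
  have hn1 : (u + 3) * k ≤ n := le_trans (Nat.mul_le_mul_right k (by omega)) hn
  have hn3 : N ≤ n := by
    have : N * 1 ≤ (u + 3 + N) * k := Nat.mul_le_mul (by omega) (by omega)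
    omega
  have hn4 : u + 3 + k ≤ n := by nlinarith
  have hn0 : 0 < n := by omega
  constructor
  · let x : Fin n := ⟨0, hn0⟩
    have hE : (univ.erase x : Finset (Fin n)).card = n - 1 := by
      rw [Finset.card_erase_of_mem (Finset.mem_univ _), Finset.card_univ, Fintype.card_fin]
    have hcc : u - 1 ≤ (powersetCard k (univ.erase x : Finset (Fin n))).card := by
      rw [Finset.card_powersetCard, hE]
      have := choose_ge_self (z := n - 1) (j := k) (by omega) (by omega)
      omega
    obtain ⟨G, hG, hGc⟩ := Finset.exists_subset_card_eq hcc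
    have := mem_sizes hfree (by omega : 1 ≤ k) (by omega) huv x G hG (Or.inl (by omega))
    rwa [hGc] at this
  · intro c hc
    refine sizes_le (M := (n - 1).choose (k - 1) + (u - 1)) ?_ c hc
    intro F hF hKF
    rcases le_total k1 k with h | h
    · have := h1 (Fin n) k h (by rw [Fintype.card_fin]; exact hn1) F hF hKF
      rwa [Fintype.card_fin] at this
    · have := h4 (Fin n) k hk h (by rw [Fintype.card_fin]; exact hn3) F hF hKF
      rwa [Fintype.card_fin] at this

/-- `u = 1`, `n ≥ (2+ε)k`. -/
theorem main_one (hA1 : S_A1) (hA3 : S_A3) (hfree : S_free) :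
    ∀ v : ℕ, 1 ≤ v → ∀ ε : ℝ, 0 < ε → ∃ k0 : ℕ, ∀ k n : ℕ, k0 ≤ k → (2 + ε) * k ≤ n →
      IsGreatest (sizes n k 1 v) ((n - 1).choose (k - 1)) := by
  intro v hv ε hε
  obtain ⟨k1, h1⟩ := hA1 1 v le_rfl hv
  obtain ⟨k3, h3⟩ := hA3 v hv ε hε
  refine ⟨max (max k1 k3) 1, fun k n hk hn => ?_⟩
  have hk1 : k1 ≤ k := le_trans (le_trans (le_max_left _ _) (le_max_left _ _)) hk
  have hk3 : k3 ≤ k := le_trans (le_trans (le_max_right _ _) (le_max_left _ _)) hk
  have hk0 : 1 ≤ k := le_trans (le_max_right _ _) hk
  have hn0 : 0 < n := by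
    have h1 : (0 : ℝ) < (2 + ε) * k := by
      have : (0 : ℝ) < k := by exact_mod_cast hk0
      positivity
    have h2 : (0 : ℝ) < n := lt_of_lt_of_le h1 hn
    exact_mod_cast h2
  constructor
  · have := mem_sizes hfree (u := 1) (v := v) hk0 le_rfl hv (⟨0, hn0⟩ : Fin n) ∅ (Finset.empty_subset _)
      (Or.inl (by simp))
    simpa using this
  · intro c hc
    refine sizes_le (M := (n - 1).choose (k - 1)) ?_ c hc
    intro F hF hKF
    rcases le_total n (4 * k) with h | h
    · have := h3 (Fin n) k hk3 (by rw [Fintype.card_fin]; exact hn)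
        (by rw [Fintype.card_fin]; exact h) F hF hKF
      rwa [Fintype.card_fin] at this
    · have := h1 (Fin n) k hk1 (by rw [Fintype.card_fin]; exact h) F hF hKF
      rw [Fintype.card_fin] at this
      simpa using this

end Pool.Agent.H30.UI
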