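import Pool.Agent.H30.UI.All

/-! second order bound for `n ≥ (2+ε)k`. -/

namespace Pool.Agent.H30.UI

open Finset

theorem second (u v : ℕ) (hu : 1 ≤ u) (huv : u ≤ v) (β : ℝ) (hβ : 0 < β) : ∃ k0 : ℕ,
    ∀ (k n r : ℕ), k0 ≤ k → k ≤ r → (r : ℝ) + k + β * n ≤ n - 1 → ∀ c ∈ sizes n k u v,
      ((c : ℝ) - ((n - 1).choose (k - 1) : ℝ)) * (r.choose k : ℝ) ≤
        2 * ((u - 1 : ℕ) : ℝ) * ((n - 1).choose k : ℝ) := by
  obtain ⟨kA, HA⟩ := s_A1 u v hu huv
  have hρ : (0 : ℝ) < 1 / ((u : ℝ) + 3) := by positivity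
  obtain ⟨L, εK, hεK, kK, HK⟩ := s_lemK β (1 / ((u : ℝ) + 3)) hβ hρ v
  have hb : (1 - β) / 2 < (1 : ℝ) / 2 := by linarith
  obtain ⟨kS, HS⟩ := s_struct ((1 - β) / 2) hb (εK / 4) (by positivity) L v
  obtain ⟨kB, HB⟩ := s_binbig ((1 - β) / 2) hb (8 * (v : ℝ) * ((u + 3 : ℕ) : ℝ) ^ L / εK)
  refine ⟨kA + kK + kS + kB + 1, ?_⟩
  intro k n r hk hkr hr
  have hk1 : 1 ≤ k := by omega
  have hkR : (0 : ℝ) < k := by exact_mod_cast hk1
  have hkrR : (k : ℝ) ≤ r := by exact_mod_cast hkr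
  have hn0 : (0 : ℝ) ≤ n := Nat.cast_nonneg _
  have hβn : 0 ≤ β * n := by positivity
  have hn2k : 2 * k ≤ n := by
    have : (2 : ℝ) * k ≤ n := by nlinarith
    exact_mod_cast this
  have hn1 : 1 ≤ n := by omega
  have hrn : r ≤ n - 1 := by
    have : (r : ℝ) ≤ ((n - 1 : ℕ) : ℝ) := by
      rw [Nat.cast_sub hn1]; push_cast; linarith
    exact_mod_cast this
  have hCr : (1 : ℝ) ≤ (r.choose k : ℝ) := by exact_mod_cast Nat.choose_pos hkr
  have hCrm : (r.choose k : ℝ) ≤ ((n - 1).choose k : ℝ) := by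
    exact_mod_cast Nat.choose_le_choose k hrn
  -- it suffices to bound the families
  have hfam : ∀ F : Finset (Finset (Fin n)), (∀ A ∈ F, A.card = k) → KF u v F F →
      ((F.card : ℝ) - ((n - 1).choose (k - 1) : ℝ)) * (r.choose k : ℝ) ≤
        2 * ((u - 1 : ℕ) : ℝ) * ((n - 1).choose k : ℝ) := by
    intro F hF hKF
    have hrhs : (0 : ℝ) ≤ 2 * ((u - 1 : ℕ) : ℝ) * ((n - 1).choose k : ℝ) := by positivity
    have hneg : F.card ≤ (n - 1).choose (k - 1) →
        ((F.card : ℝ) - ((n - 1).choose (k - 1) : ℝ)) * (r.choose k : ℝ) ≤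
        2 * ((u - 1 : ℕ) : ℝ) * ((n - 1).choose k : ℝ) := by
      intro h
      have h' : (F.card : ℝ) ≤ ((n - 1).choose (k - 1) : ℝ) := by exact_mod_cast h
      have : ((F.card : ℝ) - ((n - 1).choose (k - 1) : ℝ)) * (r.choose k : ℝ) ≤ 0 :=
        mul_nonpos_of_nonpos_of_nonneg (by linarith) (by linarith)
      linarith
    rcases le_total ((u + 3) * k) n with hbig | hsm
    · have h1 := HA (Fin n) k (by omega) (by rw [Fintype.card_fin]; exact hbig) F hF hKF
      rw [Fintype.card_fin] at h1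
      have h1R : (F.card : ℝ) - ((n - 1).choose (k - 1) : ℝ) ≤ ((u - 1 : ℕ) : ℝ) := by
        have : (F.card : ℝ) ≤ ((n - 1).choose (k - 1) : ℝ) + ((u - 1 : ℕ) : ℝ) := by
          exact_mod_cast h1
        linarith
      have hu1 : (0 : ℝ) ≤ ((u - 1 : ℕ) : ℝ) := Nat.cast_nonneg _
      calc ((F.card : ℝ) - ((n - 1).choose (k - 1) : ℝ)) * (r.choose k : ℝ)
          ≤ ((u - 1 : ℕ) : ℝ) * (r.choose k : ℝ) := mul_le_mul_of_nonneg_right h1R (by linarith)
        _ ≤ ((u - 1 : ℕ) : ℝ) * ((n - 1).choose k : ℝ) := mul_le_mul_of_nonneg_left hCrm hu1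
        _ ≤ 2 * ((u - 1 : ℕ) : ℝ) * ((n - 1).choose k : ℝ) := by nlinarith
    · rcases Nat.lt_or_ge F.card ((n - 1).choose (k - 1)) with hlt | hge
      · exact hneg hlt.le
      have hkb : (k : ℝ) ≤ (1 - β) / 2 * n := by nlinarith
      obtain ⟨x, hx⟩ := HS (Fin n) k u (by omega) (by rw [Fintype.card_fin]; exact hkb) hu huv F hF
        hKF (by rw [Fintype.card_fin]; exact hge)
      rw [Fintype.card_fin] at hx
      obtain ⟨S, hSsub, hKF', hcard, hM⟩ := H9.UI.split (Fin n) x F k u v hk1 hF hKF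
      rw [Fintype.card_fin] at hM
      set G := F.filter (fun A => x ∉ A) with hGdef
      set E := (univ.erase x : Finset (Fin n)) with hE
      have hEc : E.card = n - 1 := by
        rw [hE, Finset.card_erase_of_mem (Finset.mem_univ _), Finset.card_univ, Fintype.card_fin]
      have hG : ∀ A ∈ G, A ⊆ E ∧ A.card = k := by
        intro A hA
        rw [hGdef, Finset.mem_filter] at hA
        refine ⟨fun y hy => ?_, hF A hA.1⟩
        rw [hE, Finset.mem_erase]
        exact ⟨fun h => hA.2 (h ▸ hy), Finset.mem_univ _⟩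
      rcases Nat.lt_or_ge (G.card * r.choose k) (2 * (u - 1) * E.card.choose k) with hlt | hge2
      · have h1 : (G.card : ℝ) * (r.choose k : ℝ) ≤ 2 * ((u - 1 : ℕ) : ℝ) * (E.card.choose k : ℝ) := by
          exact_mod_cast hlt.le
        rw [hEc] at h1
        have h2 : (F.card : ℝ) - ((n - 1).choose (k - 1) : ℝ) ≤ G.card := by
          have : F.card ≤ (n - 1).choose (k - 1) + G.card := by omega
          have : (F.card : ℝ) ≤ ((n - 1).choose (k - 1) : ℝ) + G.card := by exact_mod_cast this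
          linarith
        calc ((F.card : ℝ) - ((n - 1).choose (k - 1) : ℝ)) * (r.choose k : ℝ)
            ≤ (G.card : ℝ) * (r.choose k : ℝ) := mul_le_mul_of_nonneg_right h2 (by linarith)
          _ ≤ _ := h1
      · have hEcR : (E.card : ℝ) = n - 1 := by
          rw [hEc, Nat.cast_sub hn1]; simp
        have h3 := HK (Fin n) E G S k r u (by omega) hkr
          (by
            rw [hEcR, div_mul_eq_mul_div, one_mul, div_le_iff₀ (by positivity)]
            have : (n : ℝ) ≤ (u + 3) * k := by exact_mod_cast hsm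
            have hu0 : (0 : ℝ) ≤ u := Nat.cast_nonneg _
            nlinarith)
          (by rw [hEcR]; nlinarith) hu huv hG hSsub hKF' hge2
          (by
            rw [hEc]
            exact smallG hεK (by omega : 1 ≤ v) hk1 hn2k hsm (HB k n (by omega) hkb) hx)
        exact hneg (by omega)
  intro c hc
  obtain ⟨F, hF, hU, rfl⟩ := hc
  exact hfam F (fun A hA => (Finset.mem_powersetCard.1 (hF hA)).2) (KF_of_UI hU)

end Pool.Agent.H30.UI
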