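import Pool.Agent.H30.UI.Defs

/-! MP_fffc5a_co, project UI: the statements of the lemmas.  `EL p l f`, `Ev p f` (expectation of
`f W`, `W` a `p`-random set) and `ind` are those of `Pool.Agent.H30.Diam.Defs`; basic facts:
`Pool/Agent/H30/Diam/Basics.lean`, `Pool/Agent/H82/Diam/{Basic,Slice,Capt,Pop}.lean`. -/

namespace Pool.Agent.H30.UI

open Finset Pool.Agent.H30.Diam

/-! ### Part U: the universal bound -/

/-- UI-1. Induction on `k`: `C(n,h) = C(n-2,h-2) + 2 C(n-2,h-1) + C(n-2,h) ≤ 4 C(n-2,h-1)` for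
`h = n/2`, since `h - 1 = (n-2)/2` (`Nat.choose_le_middle`). -/
def S_choose4 : Prop := ∀ n k : ℕ, 2 * k ≤ n →
  n.choose (n / 2) ≤ 4 ^ k * (n - 2 * k).choose (n / 2 - k)

/-- UI-2 (from UI-1). `n = card V`, `h = n/2`, `T = C(n-2k, h-k)`; `X` is bad if it contains at most
`v - 1` members of `F`.  `F'` = the `A ∈ F` such that `2 #{X bad, |X| = h, A ⊆ X} < T` and
`2 #{X bad, |X| = n-h, A ⊆ X} < T`.  If `A, A' ∈ F'` are disjoint, there are `T` sets `X` with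
`|X| = h, A ⊆ X, X ∩ A' = ∅`; fewer than `T/2` are bad, fewer than `T/2` have bad complement (the
complement contains `A'` and has size `n-h`), so some `X` has `≥ v` members of `F` inside `X` and
`≥ v ≥ u` members inside `Xᶜ`: contradiction with `KF`.  Counting pairs `(A, X)`, `X` bad, `A ⊆ X`:
`|F \ F'| * T ≤ 2 * (v-1) * (C(n,h) + C(n,n-h)) = 4 (v-1) C(n,h) ≤ 4 (v-1) 4^k T`. -/
def S_plus : Prop := ∀ (V : Type) [Fintype V] [DecidableEq V] (k u v : ℕ), 1 ≤ k →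
  2 * k ≤ Fintype.card V → 1 ≤ u → u ≤ v → ∀ F : Finset (Finset V), (∀ A ∈ F, A.card = k) →
  KF u v F F → ∃ F' ⊆ F, (∀ A ∈ F', ∀ B ∈ F', ¬ Disjoint A B) ∧
    (F \ F').card ≤ (v - 1) * 4 ^ (k + 1)

/-! ### Part S: stability of intersecting families -/

/-- UI-3. The `p`-measure of an intersecting family is at most `p` (`p ≤ 1/2`).  By
`H82.Diam.Ev_formula` the left side is `∑_r p^r (1-p)^(n-r) a_r`, `a_r` = number of `r`-sets with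
`P`.  `a_0 = 0`; for `2r ≤ n`, `a_r ≤ C(n-1,r-1)` (Mathlib: `Finset.erdos_ko_rado`, on `Fin n`;
transfer by an equivalence `V ≃ Fin n`); for `2r > n`, `a_r + a_(n-r) ≤ C(n,r)` (complements) and
`p^r (1-p)^(n-r) ≤ p^(n-r) (1-p)^r`, so the pair `{r, n-r}` contributes at most
`p^(n-r)(1-p)^r C(n-1,n-r-1) + p^r (1-p)^(n-r) C(n-1,r-1)`.  Sum: `∑_r p^r(1-p)^(n-r) C(n-1,r-1)=p`. -/
def S_ekr : Prop := ∀ (V : Type) [Fintype V] [DecidableEq V] (p : ℝ), 0 ≤ p → p ≤ 1 / 2 →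
  ∀ P : Finset V → Prop, Int P → Ev p (fun W => ind (P W)) ≤ p

/-- UI-4 (level-1 inequality). Induction on `l`.  Put `D_i f (W) = f (insert i W) - f (W.erase i)`.
First (Bessel) `(EL f)² + p(1-p) ∑_i (EL D_i f)² ≤ EL f²`: for `a :: l` let `f₀ = f`,
`f₁ = f ∘ insert a` (functions on subsets of `l`, `a ∉ l`); use the hypothesis for `f₀, f₁`, the
identity `(1-p) x² + p y² = ((1-p) x + p y)² + p (1-p) (y-x)²` for the means and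
`((1-p) x + p y)² ≤ (1-p) x² + p y²` for `EL D_i f₀, EL D_i f₁`.  Then the statement:
`2 Var f = 2(1-p) Var f₀ + 2p Var f₁ + 2p(1-p) a²`, `a = EL f₁ - EL f₀ = EL D_a f`; by induction this
is `≤ p(1-p) ∑_{i∈l} EL (D_i f)² + p(1-p) ∑_{i∈l} [(1-p) x_i² + p y_i²] + 2p(1-p) a²` with
`x_i = EL D_i f₀, y_i = EL D_i f₁`; `(1-p) x_i² + p y_i² = (EL D_i f)² + p(1-p) (y_i-x_i)²`, and by
Bessel for `h = f₁ - f₀`: `a² + p(1-p) ∑ (y_i-x_i)² ≤ EL_l h² = EL (D_a f)²`. -/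
def S_lvl : Prop := ∀ (α : Type) [DecidableEq α] (p : ℝ), 0 ≤ p → p ≤ 1 → ∀ l : List α, l.Nodup →
  ∀ f : Finset α → ℝ, 2 * (EL p l (fun W => f W ^ 2) - (EL p l f) ^ 2) ≤
    p * (1 - p) * ∑ i ∈ l.toFinset, (EL p l (fun W => (f (insert i W) - f (W.erase i)) ^ 2) +
      (EL p l (fun W => f (insert i W) - f (W.erase i))) ^ 2)

/-- UI-5 (Russo's formula). Induction on `l`:
`EL p (a::l) f = (1-p) EL p l f + p EL p l (f ∘ insert a)`. -/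
def S_russo : Prop := ∀ (α : Type) [DecidableEq α] (l : List α), l.Nodup →
  ∀ (f : Finset α → ℝ) (p : ℝ), HasDerivAt (fun x => EL x l f)
    (∑ i ∈ l.toFinset, EL p l (fun W => f (insert i W) - f (W.erase i))) p

/-- UI-6 (product coupling). Induction on the list: with `a = EL p l ind P ≤ A = EL p l ind (P ∘
insert x)`, `b ≤ B` the same for `q`:
`(1-pq) ab + pq AB ≤ ((1-p) a + p A)((1-q) b + q B)`, the difference being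
`(1-p) q a (B-b) + p (1-q) b (A-a)`. -/
def S_prod : Prop := ∀ (V : Type) [Fintype V] [DecidableEq V] (p q : ℝ), 0 ≤ p → p ≤ 1 → 0 ≤ q →
  q ≤ 1 → ∀ P : Finset V → Prop, Up P →
  Ev (p * q) (fun W => ind (P W)) ≤ Ev p (fun W => ind (P W)) * Ev q (fun W => ind (P W))

/-- UI-7 (from UI-3, 4, 5, 6). `g x = Ev x (ind P)` is nondecreasing on `[0,1]` (UI-6 with
`g ≤ 1`, or UI-5).  Take `δ > 0` small, `δ ≤ 1/2 - b`, `η = δ²`.  By the mean value theorem and UI-5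
some `p' ∈ (p, p+δ)` has `∑_i I_i = (g(p+δ) - g(p))/δ ≤ (p+δ-(1-η)p)/δ ≤ 1 + δ`, where
`I_i = Ev p' (ind (P (insert i W) ∧ ¬ P (W.erase i)))` (UI-3 at `p+δ ≤ 1/2`).  Also
`(1-η) p ≤ g(p) ≤ g(p') ≤ p'`, so `g(1-g) ≥ (1-η)p(1-p)` and `p'(1-p') ≤ (p+δ)(1-p)`.  UI-4 for
`f = ind P` gives `∑ I_i² ≥ 2 g(1-g)/(p'(1-p')) - ∑ I_i ≥ 2(1-η)(1-δ/a) - 1 - δ`, hence
`max I_i ≥ (2(1-η)(1-δ/a) - 1 - δ)/(1+δ) ≥ 1 - ε`.  `P (W.erase i)` implies that `i` is not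
pivotal, so `Ev p' (ind P(W.erase i)) ≤ ε`, and `p ≤ p'`. -/
def S_dict : Prop := ∀ a b ε : ℝ, 0 < a → b < 1 / 2 → 0 < ε → ∃ η : ℝ, 0 < η ∧
  ∀ (V : Type) [Fintype V] [DecidableEq V] (P : Finset V → Prop), Up P → Int P →
  ∀ p : ℝ, a ≤ p → p ≤ b → (1 - η) * p ≤ Ev p (fun W => ind (P W)) →
  ∃ i : V, Ev p (fun W => ind (P (W.erase i))) ≤ ε

/-- UI-8 (slice to measure). `Ev (ind (∃ A ∈ B, A ⊆ W)) ≥ Ev (ind (k ≤ |W|) #{A ∈ B : A ⊆ W} /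
C(|W|,k)) = |B| ∑_j C(n-k,j) p^(k+j) (1-p)^(n-k-j) / C(k+j,k) = |B| / C(n,k) Pr(k ≤ |W|)`
(`H82.Diam.sum_supset`, `choose_ratio` in `Pool/Agent/H82/Diam/Slice.lean`). -/
def S_slice2 : Prop := ∀ (V : Type) [Fintype V] [DecidableEq V] (p : ℝ), 0 ≤ p → p ≤ 1 →
  ∀ (k : ℕ) (B : Finset (Finset V)), (∀ A ∈ B, A.card = k) →
  Ev p (fun W : Finset V => ind (k ≤ W.card)) * B.card ≤
    ((Fintype.card V).choose k : ℝ) * Ev p (fun W : Finset V => ind (∃ A ∈ B, A ⊆ W))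

/-- UI-9 (Chebyshev). `Ev (|W| - np)² = np(1-p)` (induction on the list). -/
def S_cheb : Prop := ∀ (V : Type) [Fintype V] [DecidableEq V] (p : ℝ), 0 ≤ p → p ≤ 1 →
  ∀ k : ℕ, (k : ℝ) < p * Fintype.card V →
  Ev p (fun W : Finset V => ind (W.card < k)) ≤
    p * Fintype.card V / (p * Fintype.card V - k) ^ 2

/-- UI-10 (from UI-6,7,8,9). Let `κ > 0` with `b' = (1+κ) b < 1/2` (wlog `b > 0`, `κ ≤ 1`),
`a = b'^2`, `p₁ = (1+κ) k/n ≤ b'`, `P W := ∃ A ∈ F, A ⊆ W` (up-closed, intersecting).  Let `t ≥ 1`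
be least with `a^t ≤ p₁` and `p = p₁^(1/t)` (`Real.rpow`): then `a ≤ p ≤ b'` (if `t ≥ 2`,
`p₁ < a^(t-1) = b'^(2t-2) ≤ b'^t`).  UI-8, UI-9: `Ev p₁ (ind P) ≥ (1-η)(k/n)(1-(1+κ)/(κ² k)) ≥
(1-η')p₁` for suitable small `κ, η` and large `k`.  UI-6 iterated: `(1-η')p^t ≤ Ev p₁ ≤ (Ev p)^t`,
so `Ev p (ind P) ≥ (1-η') p`; UI-7 with `(a, b', c a^L)`, `c = min(1, ε/2^(L+1))`, gives `i` with
`Ev p (ind P(W.erase i)) ≤ c a^L`, and UI-6 again: `Ev p₁ (ind P(W.erase i)) ≤ (c a^L)^t ≤ c p₁^L ≤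
c (2k/n)^L`.  UI-8 for `B = {A ∈ F : i ∉ A}` and `Pr(k ≤ |W|) ≥ 1/2`: `|B| ≤ 2 C(n,k) c (2k/n)^L`. -/
def S_stab : Prop := ∀ b : ℝ, b < 1 / 2 → ∀ ε : ℝ, 0 < ε → ∀ L : ℕ, ∃ η : ℝ, 0 < η ∧ ∃ k0 : ℕ,
  ∀ (V : Type) [Fintype V] [DecidableEq V] (k : ℕ), k0 ≤ k → (k : ℝ) ≤ b * Fintype.card V →
  ∀ F : Finset (Finset V), (∀ A ∈ F, A.card = k) → (∀ A ∈ F, ∀ B ∈ F, ¬ Disjoint A B) →
  (1 - η) * ((Fintype.card V - 1).choose (k - 1) : ℝ) ≤ F.card →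
  ∃ x : V, ((F.filter (fun A => x ∉ A)).card : ℝ) ≤
    ε * ((k : ℝ) / Fintype.card V) ^ L * ((Fintype.card V).choose k : ℝ)

/-- UI-11. With `n ≥ (2+λ)k`: `C(n-1,k-1) ≥ (1+λ/2)^(k-1) C(2k-1,k-1)` (termwise
`(n-1-i)/(2k-1-i) ≥ (n-1)/(2k-1) ≥ 1+λ/2`) and `C(2k-1,k-1) = C(2k,k)/2 ≥ 4^k/(4k)`
(`Nat.four_pow_le_two_mul_self_mul_centralBinom`). -/
def S_binbig : Prop := ∀ b : ℝ, b < 1 / 2 → ∀ A : ℝ, ∃ k0 : ℕ, ∀ k n : ℕ, k0 ≤ k →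
  (k : ℝ) ≤ b * n → A * 4 ^ k ≤ ((n - 1).choose (k - 1) : ℝ)

/-- UI-12 (from UI-2, 10, 11). `|F'| ≥ C(n-1,k-1) - (v-1) 4^(k+1) ≥ (1-η) C(n-1,k-1)`. -/
def S_struct : Prop := ∀ b : ℝ, b < 1 / 2 → ∀ ε : ℝ, 0 < ε → ∀ L v : ℕ, ∃ k0 : ℕ,
  ∀ (V : Type) [Fintype V] [DecidableEq V] (k u : ℕ), k0 ≤ k → (k : ℝ) ≤ b * Fintype.card V →
  1 ≤ u → u ≤ v → ∀ F : Finset (Finset V), (∀ A ∈ F, A.card = k) → KF u v F F →
  (Fintype.card V - 1).choose (k - 1) ≤ F.card →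
  ∃ x : V, ((F.filter (fun A => x ∉ A)).card : ℝ) ≤
    ε * ((k : ℝ) / Fintype.card V) ^ L * ((Fintype.card V).choose k : ℝ) +
      ((v - 1 : ℕ) : ℝ) * 4 ^ (k + 1)

/-! ### Part K: large exceptional families (Kruskal-Katona) -/

/-- UI-13. Kruskal-Katona in Lovász' form (Mathlib `Finset.kruskal_katona_lovasz_form`) for subsets
of a finite set `E` (transfer to `Fin E.card` as in `Pool/Agent/H92/Diam/KK.lean`).  If `r ≥ 1` the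
hypothesis gives `s ≤ E.card`; `r = 0` is trivial. -/
def S_kk2 : Prop := ∀ (V : Type) [DecidableEq V] (E : Finset V) (Z : Finset (Finset V))
  (j r s : ℕ), (∀ A ∈ Z, A ⊆ E ∧ A.card = r) → j ≤ r → r ≤ s → s.choose r ≤ Z.card →
  s.choose j ≤ ((powersetCard j E).filter (fun B => ∃ A ∈ Z, B ⊆ A)).card

/-- the `(m-r)`-subsets of `E` disjoint from at least `u` members of `G`. -/
def ZZ {V : Type} [DecidableEq V] (E : Finset V) (G : Finset (Finset V)) (u r : ℕ) :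
    Finset (Finset V) :=
  (powersetCard (E.card - r) E).filter (fun Z => u ≤ (G.filter (fun A => Disjoint A Z)).card)

/-- UI-14. `m = E.card`.  Complements `Y = E \ Z` have size `r`.  `∑_Y #{A ∈ G : A ⊆ Y} =
|G| C(m-k,r-k)`, the bad `Y` (fewer than `u` members inside) contribute `≤ (u-1) C(m,r) ≤
|G| C(m-k,r-k)/2` because `C(m,r) C(r,k) = C(m,k) C(m-k,r-k)`; a good `Y` contributes `≤ C(r,k)`. -/
def S_upc : Prop := ∀ (V : Type) [DecidableEq V] (E : Finset V) (G : Finset (Finset V))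
  (k r u : ℕ), (∀ A ∈ G, A ⊆ E ∧ A.card = k) → k ≤ r → r ≤ E.card → 1 ≤ u →
  2 * (u - 1) * E.card.choose k ≤ G.card * r.choose k →
  G.card * E.card.choose r ≤ 2 * E.card.choose k * (ZZ E G u r).card

/-- UI-15 (from UI-13). `m = E.card`. By UI-13 with `j = k` at least `C(s,k)` sets `B'` of size `k`
lie in some `Z ∈ ZZ E G u r`; among the `k` subsets of `B'` of size `k-1` at most `v-1` are in `S`
(by `KF`, as `Z` is disjoint from `u` members of `G`), so at least `k+1-v` are in the complement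
`M`; a set of size `k-1` is in `m+1-k` sets of size `k`. -/
def S_shadow : Prop := ∀ (V : Type) [DecidableEq V] (E : Finset V) (G S : Finset (Finset V))
  (k r s u v : ℕ), 1 ≤ k → v ≤ k → 1 ≤ u → 1 ≤ v → KF u v G S → r + k ≤ E.card →
  E.card - r ≤ s → s.choose (E.card - r) ≤ (ZZ E G u r).card →
  (k + 1 - v) * s.choose k ≤ (E.card + 1 - k) * (powersetCard (k - 1) E \ S).card

/-- UI-16 (numeric). `C(a,j')/C(a,j) · C(b,j)/C(b,j') = ∏_{j ≤ i < j'} (a-i)/(b-i) ≤ (a/b)^(j'-j)`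
(also fine when `a < j'`, the left side being `0`). -/
def S_ratio : Prop := ∀ a b j j' : ℕ, a ≤ b → 0 < b → j ≤ j' → j' ≤ b →
  (a.choose j' : ℝ) * b.choose j ≤ a.choose j * b.choose j' * ((a : ℝ) / b) ^ (j' - j)

/-- UI-17 (numeric). `C(b-t,j)/C(b,j) = ∏_{i<t} (b-j-i)/(b-i) ≥ ((b-j-t)/b)^t`. -/
def S_down : Prop := ∀ b j t : ℕ, j + t ≤ b → 0 < b →
  (b.choose j : ℝ) * (((b : ℝ) - j - t) / b) ^ t ≤ (b - t).choose j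

/-- UI-18 (from UI-14, 15, 16, 17). `m = E.card`, `Q = |G| C(m,r) / (2 C(m,k)) ≤ |ZZ|` (UI-14).
Assume `G ≠ ∅`.  Let `s ≥ m-r` be largest with `C(s,m-r) ≤ ⌈Q⌉` (`≤ |ZZ|`), so `Q < C(s+1,m-r)`.
Let `t = m-s`, `t₀ = 1 + ⌈ln(4m/(β k))/β⌉`.  If `t < t₀` then `s ≥ m - t₀ + 1`, so by UI-17
`C(s,m-r) ≥ C(m,m-r) ((r-t₀)/m)^t₀ ≥ C(m,r) (ρ/2)^t₀` (`t₀ ≤ ρ m/2`), whereas
`C(s,m-r) ≤ Q + 1 ≤ C(m,r) (ε (k/m)^L / 2 + 1/C(m,r))`; as `(ρ/2)^t₀ ≥ (ρ/2)² (4m/(β k))^(-L')`,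
`L' = ln(2/ρ)/β`, and `C(m,r) ≥ 2^(min(ρ,β) m)`, this is impossible for `L = ⌈L'⌉`, small `ε` and
large `k`.  So `t ≥ t₀`.  By UI-16 (`a = s+1, b = m, j = k, j' = m-r`)
`|G| < 2 C(s+1,m-r) C(m,k)/C(m,m-r) ≤ 2 C(s+1,k) ((s+1)/m)^(m-r-k) ≤ 2 C(s+1,k) exp(-β (t-1))`, and
UI-15: `|M| ≥ (k+1-v)/(m+1-k) C(s,k)`, `C(s,k) = C(s+1,k) (s+1-k)/(s+1) ≥ β C(s+1,k)`
(`s+1 ≤ m`, `s - k ≥ m-r-k ≥ β m`), `k+1-v ≥ k/2`.  So `|M|/|G| ≥ (β k/(4m)) exp(β(t-1)) ≥ 1`. -/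
def S_lemK : Prop := ∀ β ρ : ℝ, 0 < β → 0 < ρ → ∀ v : ℕ, ∃ L : ℕ, ∃ ε : ℝ, 0 < ε ∧ ∃ k0 : ℕ,
  ∀ (V : Type) [DecidableEq V] (E : Finset V) (G S : Finset (Finset V)) (k r u : ℕ), k0 ≤ k →
  k ≤ r → ρ * E.card ≤ r → (r : ℝ) + k + β * E.card ≤ E.card → 1 ≤ u → u ≤ v →
  (∀ A ∈ G, A ⊆ E ∧ A.card = k) → S ⊆ powersetCard (k - 1) E → KF u v G S →
  2 * (u - 1) * E.card.choose k ≤ G.card * r.choose k →
  (G.card : ℝ) ≤ ε * ((k : ℝ) / E.card) ^ L * (E.card.choose k : ℝ) →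
  G.card ≤ (powersetCard (k - 1) E \ S).card

/-! ### Part J: small exceptional families -/

/-- UI-19. At most `v-1` of the `C(m-|∪U|,k-1)` sets `B ⊆ E \ ∪U` of size `k-1` are in `S`. -/
def S_one : Prop := ∀ (V : Type) [DecidableEq V] (E : Finset V) (G S : Finset (Finset V))
  (k u v : ℕ), 1 ≤ v → KF u v G S → ∀ U ⊆ G, U.card = u → (∀ A ∈ U, A ⊆ E) →
  (E.card - (U.biUnion id).card).choose (k - 1) ≤ (powersetCard (k - 1) E \ S).card + (v - 1)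

/-- UI-20. Averaging over the `u`-subsets `U` of `G`, `g = |G|`, `m = |E|`, `d(y)` the degree of
`y ∈ E`: `∑_U (m - |∪U|) = ∑_y C(g-d(y),u)` and `C(g-d,u)/C(g,u) = ∏_{i<u} (g-d-i)⁺/(g-i) ≥
((1-d/g-u/g)⁺)^u ≥ (1-d/g)^u - u²/g`; power mean: `∑_y (1-d(y)/g)^u ≥ m (1-k/m)^u`
(`inner`: `Real.pow_arith_mean_le_arith_mean_pow` or `inner_le..`). -/
def S_exU : Prop := ∀ (V : Type) [DecidableEq V] (E : Finset V) (G : Finset (Finset V))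
  (k u : ℕ), (∀ A ∈ G, A ⊆ E ∧ A.card = k) → 1 ≤ u → u ≤ G.card → E.Nonempty →
  ∃ U ⊆ G, U.card = u ∧ (E.card : ℝ) * (1 - (k : ℝ) / E.card) ^ u - E.card * u ^ 2 / G.card ≤
    (E.card : ℝ) - (U.biUnion id).card

/-- UI-21 (numeric). `u = 2`: `(x-1)²/x` is increasing, at `x = 3 - 1/150` it is `1.3274`.
`u ≥ 3`: `(1-1/x)^u ≥ exp(-u/(x-1)) ≥ exp(-(3/(3-1/150)))`, `x ≥ 4 - 1/150`. -/
def S_power : Prop := ∀ u : ℕ, 2 ≤ u → ∀ x : ℝ, (u : ℝ) + 1 - 1 / 150 ≤ x →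
  1.325 ≤ x * (1 - 1 / x) ^ u

/-- UI-22 (numeric). `C(m,k)/C(m-k-b,k) = ∏_{i<k} (m-i)/(m-k-b-i)`, `b = k/100`, `m ≥ 2.99 k`:
for `i < k/2` the factor is `≤ (m-k/2)/(m-3k/2-b) ≤ 2.49/1.48 = 1.6825`, for `i < k` it is
`≤ (m-k)/(m-2k-b) ≤ 1.99/0.98 = 2.0307`; the product of the two is `3.4166 < 1.86² = 3.4596`. -/
def S_n1 : Prop := ∃ k0 : ℕ, ∀ k m : ℕ, k0 ≤ k → (2.99 : ℝ) * k ≤ m →
  (m.choose k : ℝ) ≤ 3 * 1.86 ^ k * ((m - k - k / 100).choose k : ℝ)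

/-- UI-23 (numeric). With `j = ⌊0.32 k⌋ - 1`: `C(z,k-1) ≥ C(k-1+j,k-1) = C(k-1+j,j) ≥ C(4j,j)`
(`3j ≤ k-1`), and `C(4j,j) ≥ 9^(j-10)` for `j ≥ 10` (ratio
`(4j+4)(4j+3)(4j+2)(4j+1)/((j+1)(3j+3)(3j+2)(3j+1)) ≥ 9` for `j ≥ 10`); `9^0.32 = 2.0199`. -/
def S_n2 : Prop := ∃ k0 : ℕ, ∀ k z : ℕ, k0 ≤ k → (1.32 : ℝ) * k ≤ z →
  (1.93 : ℝ) ^ k ≤ (z.choose (k - 1) : ℝ)

/-- UI-24 (numeric). `C(3k-1,k-1) = C(3k,k)/3`, `C(3k+3,k+1) ≥ 6 C(3k,k)` for `k ≥ 4`. -/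
def S_n3 : Prop := ∃ k0 : ℕ, ∀ k z : ℕ, k0 ≤ k → 3 * k ≤ z + 1 →
  (5.5 : ℝ) ^ k ≤ (z.choose (k - 1) : ℝ)

/-- UI-25 (numeric). `(m-i) ≤ 3 (m/2-i)` for `i ≤ k-1`, `m ≥ 4k-1`. -/
def S_n4 : Prop := ∀ m k : ℕ, 4 * k ≤ m + 1 → m.choose k ≤ 3 ^ k * (m / 2).choose k

/-! ### Part W: packing -/

/-- UI-26. `m = |E|`, `n = m+1`, `j = (u+1)k - n`; all `u` members of `G` have a union of size
`≥ n-k` (`= u k - j` if `n ≤ (u+1)k`).  (a) trivial (`|∪U| ≤ uk < n-k`).  (b) Two members meet in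
`≤ j` points (take `U` containing both); `u+2` members would have a union of size
`≥ (u+2)k - C(u+2,2) j > m` because `k + 1 > (C(u+2,2)-1) j`.  (c) Suppose `A_0..A_u` are distinct
members.  `D = (u+1)k - |∪A_i| ≥ j+1`.  Let `s_i` be the number of points of `A_i` that lie in
another `A_l`.  `|∪_{l≠i} A_l| = |∪A_l| - (k-s_i)` so `s_i ≥ D-j`; and
`∑ s_i = ∑_{d(y)≥2} d(y) ≤ 2 ∑ (d(y)-1)⁺ = 2D`.  So `(u+1)(D-j) ≤ 2D`, `(u-1)(j+1) ≤ (u-1) D ≤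
(u+1) j`, `u-1 ≤ 2j`: contradiction. -/
def S_pack : Prop := ∀ (V : Type) [DecidableEq V] (E : Finset V) (G : Finset (Finset V))
  (k u : ℕ), (∀ A ∈ G, A ⊆ E ∧ A.card = k) → 1 ≤ k → 2 ≤ u →
  (∀ U ⊆ G, U.card = u → E.card + 1 ≤ (U.biUnion id).card + k) →
  ((u + 1) * k < E.card + 1 → G.card < u) ∧
  (E.card + 1 ≤ (u + 1) * k → (u + 2) ^ 2 * ((u + 1) * k - (E.card + 1)) ≤ k →
    G.card ≤ u + 1 ∧ (2 * ((u + 1) * k - (E.card + 1)) + 1 < u → G.card ≤ u))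

/-- UI-27. The star at `x` together with `G` (`k`-sets avoiding `x`).  Let `P, Q` be cross-disjoint,
`|P| = u`, `|Q| = v`.  One of them, say `P`, has no member containing `x`, so `P ⊆ G` and `|G| ≥ u`.
Then `|∪P| ≥ n-k`, so at most one `k`-set is disjoint from `∪P`: `v ≤ 1`, contradiction.  If `Q ⊆ G`
then `|G| ≥ v ≥ u`, so `u ≥ 2`, `∪Q` contains the union of a `u`-subset, and `|P| ≤ 1 < u`. -/
def S_free : Prop := ∀ (V : Type) [Fintype V] [DecidableEq V] (x : V) (G : Finset (Finset V))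
  (k u v : ℕ), (∀ A ∈ G, x ∉ A ∧ A.card = k) → 1 ≤ k → 1 ≤ u → u ≤ v →
  (G.card < u ∨ (2 ≤ v ∧ (2 ≤ u ∨ G.card < v) ∧
    ∀ U ⊆ G, U.card = u → Fintype.card V ≤ (U.biUnion id).card + k)) →
  KF u v (G ∪ (powersetCard k univ).filter (fun A => x ∈ A))
    (G ∪ (powersetCard k univ).filter (fun A => x ∈ A)) ∧
  (G ∪ (powersetCard k univ).filter (fun A => x ∈ A)).card =
    (Fintype.card V - 1).choose (k - 1) + G.card

/-- UI-28. `n = |E|+1`. First cover `n-k ≤ u k` points of `E` (`n-k ≤ |E|`) by at most `u` sets of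
size `k`, then add further `k`-subsets of `E` until there are `u` of them (`u ≤ C(|E|,k)`). -/
def S_con2 : Prop := ∀ (V : Type) [DecidableEq V] (E : Finset V) (k u : ℕ), 1 ≤ k →
  2 * k ≤ E.card + 1 → E.card + 1 ≤ (u + 1) * k → u ≤ E.card.choose k →
  ∃ G ⊆ powersetCard k E, G.card = u ∧ E.card + 1 ≤ (G.biUnion id).card + k

/-- UI-29. `|E| = (u+1)k - (j+1)`. Claim by induction (step 2) on `t`: if `2 ≤ t`, `t ≤ 2e`,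
`e < k` and `|E| = t k - e` there are `t` distinct `k`-sets with union `E` such that each meets the
union of the others.  `t = 2`: two sets meeting in `e` points; `t = 3`: `|A₁∩A₂| = e-1`, `|A₂∩A₃| =
1`, `A₁∩A₃ = ∅`; step: `t` sets with excess `e-1` and two further sets meeting in one point.  Apply
it with `t = u+1`, `e = j+1`: any `u` of the sets have union of size `≥ |E| - (k-1)`. -/
def S_con3 : Prop := ∀ (V : Type) [DecidableEq V] (E : Finset V) (k u j : ℕ), 2 ≤ u →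
  E.card + 1 + j = (u + 1) * k → u ≤ 2 * j + 1 → j + 1 < k →
  ∃ G ⊆ powersetCard k E, G.card = u + 1 ∧
    ∀ U ⊆ G, U.card = u → E.card + 1 ≤ (U.biUnion id).card + k

/-! ### Assembly -/

/-- UI-30. `G = {A ∈ F : x ∉ A}`, `S = {A.erase x : x ∈ A ∈ F}`. -/
def S_split : Prop := ∀ (V : Type) [Fintype V] [DecidableEq V] (x : V) (F : Finset (Finset V))
  (k u v : ℕ), 1 ≤ k → (∀ A ∈ F, A.card = k) → KF u v F F →
  ∃ S ⊆ powersetCard (k - 1) (univ.erase x), KF u v (F.filter (fun A => x ∉ A)) S ∧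
    F.card = (F.filter (fun A => x ∉ A)).card + S.card ∧
    S.card + (powersetCard (k - 1) (univ.erase x) \ S).card = (Fintype.card V - 1).choose (k - 1)

/-- UI-31 (from UI-12, 18, 19, 24, 25, 30). `n ≥ (u+3)k`.  Suppose `|F| ≥ C(n-1,k-1)`; `b = 1/4`.
UI-18 with `β = 1/6, ρ = 1/4`, `r = m/2`, `m = n-1`, gives `L, ε_K`; UI-12 with `ε_K/4, L` gives `x`;
UI-30: `G, S, M`.  `|F| = C(m,k-1) - |M| + |G|`.  If `|G| < u` done.  Otherwise take `U ⊆ G`,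
`|U| = u`, `|∪U| ≤ uk`: UI-19 and UI-24: `|M| ≥ C(m-uk,k-1) - (v-1) ≥ 5^k`.  If `|G| ≤ 5^k` done.
If `|G| > 5^k` then `(v-1)4^(k+1) ≤ |G|/2`, so `|G| ≤ (ε_K/2)(k/n)^L C(n,k) ≤ ε_K (k/m)^L C(m,k)`,
and `2(u-1) C(m,k) ≤ 2(u-1) 3^k C(r,k) ≤ |G| C(r,k)` (UI-25): UI-18 gives `|G| ≤ |M|`. -/
def S_A1 : Prop := ∀ u v : ℕ, 1 ≤ u → u ≤ v → ∃ k0 : ℕ, ∀ (V : Type) [Fintype V] [DecidableEq V]
  (k : ℕ), k0 ≤ k → (u + 3) * k ≤ Fintype.card V → ∀ F : Finset (Finset V),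
  (∀ A ∈ F, A.card = k) → KF u v F F → F.card ≤ (Fintype.card V - 1).choose (k - 1) + (u - 1)

/-- the packing term. -/
def gm (n k u : ℕ) : ℕ :=
  if (u + 1) * k < n then u - 1 else if 2 * ((u + 1) * k - n) + 1 < u then u else u + 1

/-- UI-32 (from UI-11, 12, 18, 19, 20, 21, 22, 23, 26, 30). `n ≤ (u+3)k`, `m = n-1`,
`r = m - k - k/100`, `b = 0.4`, `β = 1/(200(u+3))`, `ρ = 1/2`.  Suppose `|F| ≥ C(m,k-1)`; `x, G, S, M`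
as before, `|G| ≤ ε_K (k/m)^L C(m,k)` (by UI-12 and UI-11, as `n ≤ (u+3)k`).  If `|G| < u` done.
Case 1: all `U ⊆ G` with `|U| = u` have `|∪U| ≥ n-k`: UI-26 gives `|G| ≤ gm n k u`, and
`|F| ≤ C(m,k-1) + |G|`.  Case 2: some `U` has `|∪U| ≤ m-k`: UI-19 gives `|M| ≥ k-(v-1)`.  If
`|G| ≤ k+1-v` done.  Otherwise `|G|` is large, UI-20, UI-21 (`x = m/k ≥ u+1-1/200-1/k`): some `U` has
`m-|∪U| ≥ 1.325k - m u²/|G| ≥ 1.32 k`, so `|M| ≥ 1.93^k - (v-1) ≥ 1.9^k` (UI-19, 23).  If `|G| ≤ 1.9^k`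
done.  Otherwise UI-22: `2(u-1)C(m,k) ≤ 6(u-1) 1.86^k C(r,k) ≤ |G| C(r,k)`, UI-18: `|G| ≤ |M|`. -/
def S_A2 : Prop := ∀ u v : ℕ, 2 ≤ u → u ≤ v → ∃ k0 : ℕ, ∀ (V : Type) [Fintype V] [DecidableEq V]
  (k : ℕ), k0 ≤ k → 200 * ((u + 1) * k - Fintype.card V) ≤ k →
  (u + 2) ^ 2 * ((u + 1) * k - Fintype.card V) ≤ k → Fintype.card V ≤ (u + 3) * k →
  ∀ F : Finset (Finset V), (∀ A ∈ F, A.card = k) → KF u v F F →
  F.card ≤ (Fintype.card V - 1).choose (k - 1) + gm (Fintype.card V) k u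

/-- UI-33 (from UI-11, 12, 18, 30). `u = 1`, `(2+ε)k ≤ n ≤ 4k`: UI-18 with `r = k`, `β = ε/8` or
so, `ρ = 1/4`. -/
def S_A3 : Prop := ∀ v : ℕ, 1 ≤ v → ∀ ε : ℝ, 0 < ε → ∃ k0 : ℕ,
  ∀ (V : Type) [Fintype V] [DecidableEq V]
  (k : ℕ), k0 ≤ k → (2 + ε) * k ≤ Fintype.card V → Fintype.card V ≤ 4 * k →
  ∀ F : Finset (Finset V), (∀ A ∈ F, A.card = k) → KF 1 v F F →
  F.card ≤ (Fintype.card V - 1).choose (k - 1)

/-- UI-34. Some set `A₀ ∈ F` meets all; some `x ∈ A₀` has degree `≥ |F|/k > k C(n-2,k-2)`; if `x ∉ B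
∈ F` then all sets of `F` containing `x` meet `B`, so the degree is `≤ k C(n-2,k-2)`. -/
def S_triv : Prop := ∀ (V : Type) [Fintype V] [DecidableEq V] (k : ℕ) (F : Finset (Finset V)),
  2 ≤ k → (∀ A ∈ F, A.card = k) → (∀ A ∈ F, ∀ B ∈ F, ¬ Disjoint A B) →
  k ^ 2 * (Fintype.card V - 2).choose (k - 2) < F.card → ∃ x : V, ∀ A ∈ F, x ∈ A

/-- UI-35 (from UI-2, 19, 30, 34). Fixed `k`, large `n`.  `F'` of UI-2 has
`|F'| ≥ C(n-1,k-1) - (v-1)4^(k+1) > k² C(n-2,k-2)`, so it is a star at `x` and `|G| ≤ (v-1)4^(k+1)`;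
if `|G| ≥ u`, `|M| ≥ C(m-uk,k-1) - (v-1) ≥ m-uk-(v-1) ≥ |G|`. -/
def S_A4 : Prop := ∀ u v K : ℕ, 1 ≤ u → u ≤ v → ∃ N : ℕ, ∀ (V : Type) [Fintype V] [DecidableEq V]
  (k : ℕ), 2 ≤ k → k ≤ K → N ≤ Fintype.card V → ∀ F : Finset (Finset V),
  (∀ A ∈ F, A.card = k) → KF u v F F → F.card ≤ (Fintype.card V - 1).choose (k - 1) + (u - 1)

end Pool.Agent.H30.UI
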